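import Pool.Agent.H851.VC.UA

/-!
Ordered cliques and the Moon-Moser supersaturation inequality.
-/

open Finset
open scoped Classical

namespace H851VG

variable {V : Type*} (G : SimpleGraph V)

/-- ordered `r`-cliques with vertices in `S` -/
noncomputable def T (S : Finset V) (r : ℕ) : Finset (Fin r → V) :=
  (Fintype.piFinset (fun _ : Fin r => S)).filter (fun f => ∀ i j, i ≠ j → G.Adj (f i) (f j))

/-- common neighbours in `S` -/
noncomputable def cn (S : Finset V) {r : ℕ} (Q : Fin r → V) : Finset V :=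
  S.filter (fun z => ∀ j, G.Adj z (Q j))

variable {G}

theorem mem_T {S : Finset V} {r : ℕ} {f : Fin r → V} :
    f ∈ T G S r ↔ (∀ i, f i ∈ S) ∧ ∀ i j, i ≠ j → G.Adj (f i) (f j) := by
  simp [T, Fintype.mem_piFinset]

theorem mem_cn {S : Finset V} {r : ℕ} {Q : Fin r → V} {z : V} :
    z ∈ cn G S Q ↔ z ∈ S ∧ ∀ j, G.Adj z (Q j) := by
  simp [cn]

theorem mem_T_succ {S : Finset V} {r : ℕ} (i : Fin (r + 1)) {R : Fin (r + 1) → V} :
    R ∈ T G S (r + 1) ↔ (fun j => R (i.succAbove j)) ∈ T G S r ∧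
      R i ∈ cn G S (fun j => R (i.succAbove j)) := by
  rw [mem_T, mem_T, mem_cn]
  constructor
  · rintro ⟨h1, h2⟩
    refine ⟨⟨fun j => h1 _, fun j k hjk => h2 _ _ (fun h => hjk (Fin.succAbove_right_injective h))⟩,
      h1 _, fun j => h2 _ _ (Fin.succAbove_ne i j).symm⟩
  · rintro ⟨⟨h1, h2⟩, h3, h4⟩
    refine ⟨(Fin.forall_iff_succAbove i).2 ⟨h3, h1⟩, ?_⟩
    rw [Fin.forall_iff_succAbove i]
    refine ⟨?_, fun j => ?_⟩
    · rw [Fin.forall_iff_succAbove i]
      exact ⟨fun h => absurd rfl h, fun j _ => h4 j⟩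
    · rw [Fin.forall_iff_succAbove i]
      exact ⟨fun _ => (h4 j).symm, fun k hk => h2 j k (fun h => hk (by rw [h]))⟩

theorem sum_T {S : Finset V} {r : ℕ} (i : Fin (r + 1)) (F : V → (Fin r → V) → ℕ) :
    ∑ R ∈ T G S (r + 1), F (R i) (fun j => R (i.succAbove j)) =
      ∑ Q ∈ T G S r, ∑ z ∈ cn G S Q, F z Q := by
  rw [Finset.sum_sigma']
  refine Finset.sum_bij'
    (i := fun R _ => (⟨fun j => R (i.succAbove j), R i⟩ : Σ _ : Fin r → V, V))
    (j := fun p _ => (Fin.insertNth (α := fun _ => V) i p.2 p.1)) ?_ ?_ ?_ ?_ ?_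
  · intro R hR
    rw [Finset.mem_sigma]
    exact (mem_T_succ i).1 hR
  · rintro ⟨Q, z⟩ h
    rw [Finset.mem_sigma] at h
    rw [mem_T_succ i]
    simpa using h
  · intro R _
    exact Fin.insertNth_self_removeNth i R
  · rintro ⟨Q, z⟩ _
    simp
  · intro R _
    rfl

theorem card_T_succ (S : Finset V) (r : ℕ) :
    (T G S (r + 1)).card = ∑ Q ∈ T G S r, (cn G S Q).card := by
  have h := sum_T (G := G) (S := S) (r := r) 0 (fun _ _ => 1)
  simpa using h

theorem cn_sum_le (S : Finset V) {s : ℕ} (R : Fin (s + 1) → V) :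
    ∑ i : Fin (s + 1), (cn G S (fun j => R (i.succAbove j))).card ≤
      S.card + s * (cn G S R).card := by
  have h1 : ∀ i : Fin (s + 1), (cn G S (fun j => R (i.succAbove j))).card =
      ∑ z ∈ S, if (∀ j, G.Adj z (R (i.succAbove j))) then 1 else 0 := by
    intro i
    rw [cn, Finset.card_filter]
  have h2 : (cn G S R).card = ∑ z ∈ S, if (∀ j, G.Adj z (R j)) then 1 else 0 := by
    rw [cn, Finset.card_filter]
  have h3 : S.card = ∑ z ∈ S, 1 := by simp
  rw [Finset.sum_congr rfl (fun i _ => h1 i), Finset.sum_comm, h2, h3, Finset.mul_sum,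
    ← Finset.sum_add_distrib]
  refine Finset.sum_le_sum (fun z _ => ?_)
  by_cases h : ∀ j, G.Adj z (R j)
  · rw [if_pos h]
    calc ∑ i : Fin (s + 1), (if (∀ j, G.Adj z (R (i.succAbove j))) then 1 else 0)
        ≤ ∑ _i : Fin (s + 1), 1 := Finset.sum_le_sum (fun i _ => by split_ifs <;> omega)
      _ = 1 + s * 1 := by simp; omega
  · rw [if_neg h, mul_zero, add_zero]
    push Not at h
    obtain ⟨j, hj⟩ := h
    rw [← Finset.card_filter]
    refine Finset.card_le_one.2 (fun a ha b hb => ?_)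
    have key : ∀ a : Fin (s + 1), (∀ k, G.Adj z (R (a.succAbove k))) → a = j := by
      intro a ha
      by_contra hne
      obtain ⟨k, hk⟩ := Fin.exists_succAbove_eq (Ne.symm hne)
      exact hj (hk ▸ ha k)
    rw [key a (Finset.mem_filter.1 ha).2, key b (Finset.mem_filter.1 hb).2]

/-- the Moon-Moser inequality for ordered cliques -/
theorem moon_moser (S : Finset V) (s : ℕ) :
    (s + 1) * (T G S (s + 1)).card ^ 2 ≤
      (T G S s).card * (S.card * (T G S (s + 1)).card + s * (T G S (s + 2)).card) := by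
  have h1 : ∑ R ∈ T G S (s + 1), ∑ i : Fin (s + 1), (cn G S (fun j => R (i.succAbove j))).card ≤
      S.card * (T G S (s + 1)).card + s * (T G S (s + 2)).card := by
    calc ∑ R ∈ T G S (s + 1), ∑ i : Fin (s + 1), (cn G S (fun j => R (i.succAbove j))).card
        ≤ ∑ R ∈ T G S (s + 1), (S.card + s * (cn G S R).card) :=
          Finset.sum_le_sum (fun R _ => cn_sum_le S R)
      _ = _ := by
          rw [Finset.sum_add_distrib, ← Finset.mul_sum, ← card_T_succ, Finset.sum_const,
            smul_eq_mul]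
          ring
  have h2 : ∑ R ∈ T G S (s + 1), ∑ i : Fin (s + 1), (cn G S (fun j => R (i.succAbove j))).card =
      (s + 1) * ∑ Q ∈ T G S s, (cn G S Q).card ^ 2 := by
    rw [Finset.sum_comm]
    have : ∀ i : Fin (s + 1), ∑ R ∈ T G S (s + 1), (cn G S (fun j => R (i.succAbove j))).card =
        ∑ Q ∈ T G S s, (cn G S Q).card ^ 2 := by
      intro i
      rw [sum_T i (fun _ Q => (cn G S Q).card)]
      refine Finset.sum_congr rfl (fun Q _ => ?_)
      rw [Finset.sum_const, smul_eq_mul, sq]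
    rw [Finset.sum_congr rfl (fun i _ => this i)]
    simp
  have h3 : (T G S (s + 1)).card ^ 2 ≤ (T G S s).card * ∑ Q ∈ T G S s, (cn G S Q).card ^ 2 := by
    rw [card_T_succ]
    exact sq_sum_le_card_mul_sum_sq
  calc (s + 1) * (T G S (s + 1)).card ^ 2
      ≤ (s + 1) * ((T G S s).card * ∑ Q ∈ T G S s, (cn G S Q).card ^ 2) :=
        Nat.mul_le_mul_left _ h3
    _ = (T G S s).card * ((s + 1) * ∑ Q ∈ T G S s, (cn G S Q).card ^ 2) := by ring
    _ ≤ _ := Nat.mul_le_mul_left _ (h2 ▸ h1)

theorem card_T_zero (S : Finset V) : (T G S 0).card = 1 := by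
  rw [T, Finset.filter_true_of_mem]
  · simp
  · intro f _ i
    exact i.elim0

theorem card_T_one (S : Finset V) : (T G S 1).card = S.card := by
  rw [card_T_succ]
  have : ∀ Q ∈ T G S 0, (cn G S Q).card = S.card := by
    intro Q _
    rw [cn, Finset.filter_true_of_mem]
    intro z _ j
    exact j.elim0
  rw [Finset.sum_congr rfl this, Finset.sum_const, card_T_zero, one_smul]

theorem card_T_two (S : Finset V) : (T G S 2).card = H851VC.e2 G S := by
  have h := sum_T (G := G) (S := S) (r := 1) 0 (fun _ _ => 1)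
  rw [card_T_succ]
  have h1 := sum_T (G := G) (S := S) (r := 0) 0 (fun z _ => (S.filter (fun w => G.Adj w z)).card)
  have e1 : ∑ Q ∈ T G S 1, (cn G S Q).card =
      ∑ Q ∈ T G S (0 + 1), (S.filter (fun w => G.Adj w (Q 0))).card := by
    refine Finset.sum_congr rfl (fun Q _ => ?_)
    congr 1
    ext z
    rw [mem_cn, Finset.mem_filter]
    simp
  rw [e1, h1]
  have e2 : ∀ Q ∈ T G S 0, ∑ z ∈ cn G S Q, (S.filter (fun w => G.Adj w z)).card =
      H851VC.e2 G S := by
    intro Q _
    have : cn G S Q = S := by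
      rw [cn, Finset.filter_true_of_mem]
      intro z _ j
      exact j.elim0
    rw [this]
    unfold H851VC.e2 H851VC.dg
    refine Finset.sum_congr rfl (fun z _ => ?_)
    congr 1
    ext w
    simp [G.adj_comm]
  rw [Finset.sum_congr rfl e2, Finset.sum_const, card_T_zero, one_smul]

/-- supersaturation -/
theorem supersat (S : Finset V) (δ : ℝ) (h : (1 - δ) * (S.card : ℝ) ^ 2 ≤ H851VC.e2 G S) :
    ∀ r : ℕ, 1 ≤ r → (1 - r * δ) * S.card * ((T G S r).card : ℝ) ≤ (T G S (r + 1)).card := by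
  intro r hr
  induction r, hr using Nat.le_induction with
  | base =>
    rw [card_T_one, show 1 + 1 = 2 from rfl, card_T_two]
    push_cast
    calc (1 - 1 * δ) * (S.card : ℝ) * S.card = (1 - δ) * (S.card : ℝ) ^ 2 := by ring
      _ ≤ _ := h
  | succ r hr ih =>
    have hmm := moon_moser (G := G) S r
    have hmm' : ((r : ℝ) + 1) * ((T G S (r + 1)).card : ℝ) ^ 2 ≤
        (T G S r).card * (S.card * (T G S (r + 1)).card + r * (T G S (r + 2)).card) := by
      exact_mod_cast hmm
    set a : ℝ := ((T G S r).card : ℝ) with ha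
    set b : ℝ := ((T G S (r + 1)).card : ℝ) with hb
    set d : ℝ := ((T G S (r + 2)).card : ℝ) with hd
    set m : ℝ := (S.card : ℝ) with hm
    have ha0 : 0 ≤ a := by positivity
    have hb0 : 0 ≤ b := by positivity
    have hd0 : 0 ≤ d := by positivity
    have hm0 : 0 ≤ m := by positivity
    have hr1 : (1 : ℝ) ≤ r := by exact_mod_cast hr
    show (1 - ((r + 1 : ℕ) : ℝ) * δ) * m * b ≤ d
    push_cast
    rcases hb0.eq_or_lt with hb1 | hb1
    · rw [← hb1, mul_zero]; exact hd0
    · have ha1 : 0 < a := by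
        rcases ha0.eq_or_lt with h1 | h1
        · exfalso
          rw [← h1, zero_mul] at hmm'
          have : 0 < ((r : ℝ) + 1) * b ^ 2 := by positivity
          linarith
        · exact h1
      have h2 : ((r : ℝ) + 1) * b * ((1 - r * δ) * m * a) ≤ ((r : ℝ) + 1) * b * b :=
        mul_le_mul_of_nonneg_left ih (by positivity)
      have h3 : a * ((r : ℝ) * ((1 - (r + 1) * δ) * m * b)) ≤ a * (r * d) := by
        nlinarith
      have h4 := le_of_mul_le_mul_left h3 ha1
      exact le_of_mul_le_mul_left h4 (by linarith)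

theorem supersat_count (S : Finset V) (δ : ℝ) (hδ : 0 ≤ δ)
    (h : (1 - δ) * (S.card : ℝ) ^ 2 ≤ H851VC.e2 G S) (p : ℕ) (κ : ℝ) (hκ0 : 0 ≤ κ)
    (hκ : κ ≤ 1 - p * δ) : ∀ r, r ≤ p + 1 → (κ * S.card) ^ r ≤ ((T G S r).card : ℝ) := by
  intro r
  induction r with
  | zero => intro _; rw [card_T_zero]; simp
  | succ r ih =>
    intro hr
    have ih' := ih (by omega)
    have hm0 : (0 : ℝ) ≤ S.card := by positivity
    have hp0 : (0 : ℝ) ≤ p := by positivity
    have hκ1 : κ ≤ 1 := by
      have : 0 ≤ (p : ℝ) * δ := by positivity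
      linarith
    have h1 : κ * S.card * ((T G S r).card : ℝ) ≤ (T G S (r + 1)).card := by
      rcases Nat.eq_zero_or_pos r with h0 | h0
      · subst h0
        rw [card_T_zero, card_T_one]
        push_cast
        nlinarith
      · refine le_trans ?_ (supersat S δ h r h0)
        have : κ ≤ 1 - r * δ := by
          have : (r : ℝ) * δ ≤ p * δ := by
            apply mul_le_mul_of_nonneg_right _ hδ
            exact_mod_cast (by omega : r ≤ p)
          linarith
        have h2 : (0 : ℝ) ≤ (T G S r).card := by positivity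
        exact mul_le_mul_of_nonneg_right (mul_le_mul_of_nonneg_right this hm0) h2
    calc (κ * S.card) ^ (r + 1) = (κ * S.card) * (κ * S.card) ^ r := by ring
      _ ≤ (κ * S.card) * (T G S r).card := mul_le_mul_of_nonneg_left ih' (by positivity)
      _ ≤ _ := h1

end H851VG
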