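import Pool.Agent.H851.VG.GA

/-!
The abstract setting for general `k` and the key counting lemma.
-/

open Finset
open scoped Classical

namespace H851VG

/-- The abstract situation: `c v` is a proper colouring of `G - v` with `p + 1` colours, `D` and `N`
are disjoint, each `x ∈ D` has a neighbour `r x ∈ N`, whose colour in `c x` is not the colour of any
neighbour of `x` in `D`. -/
structure Setup {V : Type*} (G : SimpleGraph V) (p : ℕ) where
  c : V → V → Fin (p + 1)
  hc : ∀ v u w, u ≠ v → w ≠ v → G.Adj u w → c v u ≠ c v w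
  D : Finset V
  N : Finset V
  r : V → V
  hDN : ∀ x ∈ D, x ∉ N
  hr : ∀ x ∈ D, r x ∈ N
  hadj : ∀ x ∈ D, G.Adj x (r x)
  hP : ∀ x ∈ D, ∀ k ∈ D, G.Adj x k → c x k ≠ c x (r x)
  hbig : ∀ A : Finset V, A.card ≤ 2 * p + 3 → ∃ v, v ∉ A

namespace Setup

variable {V : Type*} {G : SimpleGraph V} {p : ℕ} (S : Setup G p)

/-- indices of the vertices of `K` which are not adjacent to `z` -/
noncomputable def M (G : SimpleGraph V) {q : ℕ} (K : Fin q → V) (z : V) : Finset (Fin q) :=
  Finset.univ.filter (fun i => ¬ G.Adj z (K i))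

theorem mem_M {q : ℕ} {K : Fin q → V} {z : V} {i : Fin q} : i ∈ M G K z ↔ ¬ G.Adj z (K i) := by
  simp [M]

variable {K : Fin (p + 1) → V} (hK : ∀ i j, i ≠ j → G.Adj (K i) (K j))

include hK in
theorem inj_of (v : V) (hv : ∀ i, K i ≠ v) : Function.Injective (fun i => S.c v (K i)) := by
  intro i j hij
  by_contra hne
  exact S.hc v _ _ (hv i) (hv j) (hK i j hne) hij

include hK in
/-- every colour appears on the clique -/
theorem surj_of (v : V) (hv : ∀ i, K i ≠ v) (κ : Fin (p + 1)) : ∃ i, S.c v (K i) = κ :=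
  Finite.surjective_of_injective (S.inj_of hK v hv) κ

include S hK in
theorem exists_generic (A : Finset V) (hA : A.card ≤ p + 2) :
    ∃ v, v ∉ A ∧ ∀ i, K i ≠ v := by
  obtain ⟨v, hv⟩ := S.hbig (A ∪ Finset.univ.image K) (by
    calc (A ∪ Finset.univ.image K).card ≤ A.card + (Finset.univ.image K).card :=
          Finset.card_union_le _ _
      _ ≤ (p + 2) + (p + 1) := Nat.add_le_add hA (Finset.card_image_le.trans (by simp))
      _ = 2 * p + 3 := by ring)
  rw [Finset.mem_union, not_or] at hv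
  refine ⟨v, hv.1, fun i h => hv.2 (Finset.mem_image.2 ⟨i, Finset.mem_univ _, h⟩)⟩

include S hK in
/-- every vertex misses some vertex of the clique -/
theorem one_le_M (z : V) : 1 ≤ (M G K z).card := by
  rw [Finset.one_le_card]
  obtain ⟨v, hv, hvK⟩ := S.exists_generic hK {z} (by simp)
  obtain ⟨i, hi⟩ := S.surj_of hK v hvK (S.c v z)
  refine ⟨i, mem_M.2 (fun h => ?_)⟩
  exact S.hc v z (K i) (fun h => hv (by rw [h]; simp)) (hvK i) h hi.symm

/-- the rigid vertices served by `y` -/
noncomputable def Rg (H : Finset V) (K : Fin (p + 1) → V) (y : V) : Finset V :=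
  (H ∩ S.D).filter (fun x => S.r x = y ∧ (∀ i, K i ≠ x) ∧ (M G K x).card ≤ 1)

include hK in
theorem rg_card (H : Finset V) (hKD : ∀ i, K i ∈ S.D) (y : V) :
    (S.Rg H K y).card + 1 ≤ (M G K y).card := by
  have hex : ∀ x : V, ∃ i, (∀ j, K j ≠ x) → S.c x (K i) = S.c x (S.r x) := by
    intro x
    by_cases h : ∀ j, K j ≠ x
    · obtain ⟨i, hi⟩ := S.surj_of hK x h (S.c x (S.r x))
      exact ⟨i, fun _ => hi⟩
    · exact ⟨0, fun h' => absurd h' h⟩
  choose a ha using hex
  have hmem : ∀ x ∈ S.Rg H K y, x ∈ S.D ∧ S.r x = y ∧ (∀ i, K i ≠ x) ∧ (M G K x).card ≤ 1 := by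
    intro x hx
    have h := Finset.mem_filter.1 hx
    exact ⟨(Finset.mem_inter.1 h.1).2, h.2⟩
  have ha' : ∀ x ∈ S.Rg H K y, S.c x (K (a x)) = S.c x y := by
    intro x hx
    obtain ⟨_, h2, h3, _⟩ := hmem x hx
    rw [ha x h3, h2]
  have hadj : ∀ x ∈ S.Rg H K y, G.Adj x y := by
    intro x hx
    obtain ⟨h1, h2, _, _⟩ := hmem x hx
    rw [← h2]; exact S.hadj x h1
  have hax : ∀ x ∈ S.Rg H K y, ¬ G.Adj x (K (a x)) := by
    intro x hx h
    obtain ⟨h1, h2, h3, _⟩ := hmem x hx
    exact S.hP x h1 (K (a x)) (hKD _) h (ha x h3)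
  have hay : ∀ x ∈ S.Rg H K y, ¬ G.Adj y (K (a x)) := by
    intro x hx h
    obtain ⟨_, _, h3, _⟩ := hmem x hx
    exact S.hc x y (K (a x)) (hadj x hx).ne' (h3 _) h (ha' x hx).symm
  have huniq : ∀ x ∈ S.Rg H K y, ∀ b, ¬ G.Adj x (K b) → b = a x := by
    intro x hx b hb
    exact Finset.card_le_one.1 (hmem x hx).2.2.2 b (mem_M.2 hb) (a x) (mem_M.2 (hax x hx))
  have hinj : Set.InjOn a (S.Rg H K y) := by
    intro x hx x' hx' he
    by_contra hne
    have hx := Finset.mem_coe.1 hx
    have hx' := Finset.mem_coe.1 hx'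
    obtain ⟨b, hb⟩ := S.surj_of hK x (hmem x hx).2.2.1 (S.c x x')
    have h1 : ¬ G.Adj x' (K b) := fun h =>
      S.hc x x' (K b) (Ne.symm hne) ((hmem x hx).2.2.1 b) h hb.symm
    have h2 := huniq x' hx' b h1
    rw [h2, ← he, ha' x hx] at hb
    exact S.hc x x' y (Ne.symm hne) (hadj x hx).ne' (hadj x' hx') hb.symm
  have hcard : (S.Rg H K y).card ≤ p + 1 := by
    have := Finset.card_le_card_of_injOn a (fun x _ => Finset.mem_univ (a x)) hinj
    simpa using this
  obtain ⟨v, hv, hvK⟩ := S.exists_generic hK (insert y (S.Rg H K y))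
    ((Finset.card_insert_le _ _).trans (by omega))
  rw [Finset.mem_insert, not_or] at hv
  obtain ⟨g, hg⟩ := S.surj_of hK v hvK (S.c v y)
  have hgM : g ∈ M G K y := mem_M.2 (fun h => S.hc v y (K g) (Ne.symm hv.1) (hvK g) h hg.symm)
  have hle : (S.Rg H K y).card ≤ ((M G K y).erase g).card := by
    apply Finset.card_le_card_of_injOn a _ hinj
    intro x hx
    have hx := Finset.mem_coe.1 hx
    rw [Finset.mem_coe, Finset.mem_erase]
    refine ⟨fun he => ?_, mem_M.2 (hay x hx)⟩
    have hxv : x ≠ v := fun h => hv.2 (h ▸ hx)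
    obtain ⟨b, hb⟩ := S.surj_of hK v hvK (S.c v x)
    have h1 : ¬ G.Adj x (K b) := fun h => S.hc v x (K b) hxv (hvK b) h hb.symm
    have h2 := huniq x hx b h1
    rw [h2, he, hg] at hb
    exact S.hc v x y hxv (Ne.symm hv.1) (hadj x hx) hb.symm
  rw [Finset.card_erase_of_mem hgM] at hle
  have := Finset.card_pos.2 ⟨g, hgM⟩
  omega

include hK in
/-- Key lemma: in a closed set the total excess is at least the number of vertices of `D`. -/
theorem excess_D (H : Finset V) (hH : ∀ x ∈ H, x ∈ S.D → S.r x ∈ H) (hKD : ∀ i, K i ∈ S.D) :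
    (H ∩ S.D).card ≤ ∑ z ∈ H, ((M G K z).card - 1) + (p + 1) := by
  set X1 := (H ∩ S.D).filter (fun x => (∀ i, K i ≠ x) ∧ (M G K x).card ≤ 1) with hX1
  set X2 := (H ∩ S.D).filter (fun x => 2 ≤ (M G K x).card) with hX2
  have hcov : H ∩ S.D ⊆ X1 ∪ (X2 ∪ Finset.univ.image K) := by
    intro x hx
    by_cases h1 : 2 ≤ (M G K x).card
    · exact Finset.mem_union_right _ (Finset.mem_union_left _ (Finset.mem_filter.2 ⟨hx, h1⟩))
    · by_cases h2 : ∀ i, K i ≠ x
      · exact Finset.mem_union_left _ (Finset.mem_filter.2 ⟨hx, h2, by omega⟩)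
      · push Not at h2
        obtain ⟨i, hi⟩ := h2
        exact Finset.mem_union_right _ (Finset.mem_union_right _
          (Finset.mem_image.2 ⟨i, Finset.mem_univ _, hi⟩))
  have h1 : (H ∩ S.D).card ≤ X1.card + (X2.card + (p + 1)) := by
    calc (H ∩ S.D).card ≤ (X1 ∪ (X2 ∪ Finset.univ.image K)).card := Finset.card_le_card hcov
      _ ≤ X1.card + (X2 ∪ Finset.univ.image K).card := Finset.card_union_le _ _
      _ ≤ X1.card + (X2.card + (Finset.univ.image K).card) :=
          Nat.add_le_add_left (Finset.card_union_le _ _) _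
      _ ≤ _ := by
          have : (Finset.univ.image K).card ≤ p + 1 := Finset.card_image_le.trans (by simp)
          omega
  -- the rigid vertices
  have h2 : X1.card ≤ ∑ y ∈ H ∩ S.N, ((M G K y).card - 1) := by
    have e1 : X1.card = ∑ y ∈ H ∩ S.N, (S.Rg H K y).card := by
      rw [Finset.card_eq_sum_card_fiberwise (f := S.r) (t := H ∩ S.N)]
      · refine Finset.sum_congr rfl (fun y _ => ?_)
        congr 1
        ext x
        simp only [Rg, hX1, Finset.mem_filter]
        tauto
      · intro x hx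
        have hx := Finset.mem_filter.1 (Finset.mem_coe.1 hx)
        have hx1 := Finset.mem_inter.1 hx.1
        exact Finset.mem_coe.2 (Finset.mem_inter.2 ⟨hH x hx1.1 hx1.2, S.hr x hx1.2⟩)
    rw [e1]
    refine Finset.sum_le_sum (fun y _ => ?_)
    have := S.rg_card hK H hKD y
    omega
  have h3 : X2.card ≤ ∑ x ∈ H ∩ S.D, ((M G K x).card - 1) := by
    rw [Finset.card_eq_sum_ones, hX2, Finset.sum_filter]
    refine Finset.sum_le_sum (fun x _ => ?_)
    split_ifs <;> omega
  have hdisj : Disjoint (H ∩ S.N) (H ∩ S.D) := by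
    rw [Finset.disjoint_left]
    intro x hx hx'
    exact S.hDN x (Finset.mem_inter.1 hx').2 (Finset.mem_inter.1 hx).2
  have h4 : ∑ y ∈ H ∩ S.N, ((M G K y).card - 1) + ∑ x ∈ H ∩ S.D, ((M G K x).card - 1) ≤
      ∑ z ∈ H, ((M G K z).card - 1) := by
    rw [← Finset.sum_union hdisj]
    exact Finset.sum_le_sum_of_subset (Finset.union_subset Finset.inter_subset_left
      Finset.inter_subset_left)
  omega

/-- the total excess is at least the number of vertices of `N` missing two vertices -/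
theorem excess_N (H : Finset V) (K : Fin (p + 1) → V) :
    (H ∩ S.N).card ≤ ∑ z ∈ H, ((M G K z).card - 1) +
      ((H ∩ S.N).filter (fun y => (M G K y).card ≤ 1)).card := by
  have h1 : (H ∩ S.N).card = ((H ∩ S.N).filter (fun y => (M G K y).card ≤ 1)).card +
      ((H ∩ S.N).filter (fun y => ¬ (M G K y).card ≤ 1)).card :=
    (Finset.card_filter_add_card_filter_not _).symm
  have h2 : ((H ∩ S.N).filter (fun y => ¬ (M G K y).card ≤ 1)).card ≤
      ∑ z ∈ H ∩ S.N, ((M G K z).card - 1) := by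
    rw [Finset.card_eq_sum_ones, Finset.sum_filter]
    refine Finset.sum_le_sum (fun x _ => ?_)
    split_ifs <;> omega
  have h3 : ∑ z ∈ H ∩ S.N, ((M G K z).card - 1) ≤ ∑ z ∈ H, ((M G K z).card - 1) :=
    Finset.sum_le_sum_of_subset Finset.inter_subset_left
  omega

include S hK in
/-- degree sum over the clique -/
theorem deg_sum (H : Finset V) :
    ∑ i, H851VC.dg G H (K i) + ∑ z ∈ H, ((M G K z).card - 1) + H.card = (p + 1) * H.card := by
  have h1 : ∑ z ∈ H, ((M G K z).card - 1) + H.card = ∑ z ∈ H, (M G K z).card := by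
    rw [Finset.card_eq_sum_ones, ← Finset.sum_add_distrib]
    refine Finset.sum_congr rfl (fun z _ => ?_)
    have := S.one_le_M hK z
    omega
  rw [add_assoc, h1]
  have h2 : ∑ i, H851VC.dg G H (K i) =
      ∑ z ∈ H, (Finset.univ.filter (fun i => G.Adj z (K i))).card := by
    unfold H851VC.dg
    simp_rw [Finset.card_filter]
    rw [Finset.sum_comm]
    refine Finset.sum_congr rfl (fun z _ => Finset.sum_congr rfl (fun i _ => ?_))
    simp [G.adj_comm]
  rw [h2, ← Finset.sum_add_distrib]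
  have h3 : ∀ z ∈ H, (Finset.univ.filter (fun i => G.Adj z (K i))).card + (M G K z).card = p + 1 := by
    intro z _
    rw [M, Finset.card_filter_add_card_filter_not]
    simp
  rw [Finset.sum_congr rfl h3, Finset.sum_const, smul_eq_mul, mul_comm]

include hK in
/-- The combined inequality. -/
theorem clique_bound (H : Finset V) (hH : ∀ x ∈ H, x ∈ S.D → S.r x ∈ H)
    (hHS : H ⊆ S.D ∪ S.N) (hKD : ∀ i, K i ∈ S.D) :
    2 * ∑ i, H851VC.dg G H (K i) + 3 * H.card ≤ 2 * ((p + 1) * H.card) + (p + 1) +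
      ((H ∩ S.N).filter (fun y => (M G K y).card ≤ 1)).card := by
  have h1 := S.excess_D hK H hH hKD
  have h2 := S.excess_N H K
  have h3 := S.deg_sum hK H
  have h4 : H.card ≤ (H ∩ S.D).card + (H ∩ S.N).card := by
    calc H.card ≤ ((H ∩ S.D) ∪ (H ∩ S.N)).card := by
          apply Finset.card_le_card
          rw [← Finset.inter_union_distrib_left]
          exact Finset.subset_inter (Finset.Subset.refl _) hHS
      _ ≤ _ := Finset.card_union_le _ _
  omega

end Setup

end H851VG
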