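import Pool.Agent.H851.VG.GB
import Pool.Agent.H851.VC.UE

/-!
Selection of the clique and the extremal closed subset.
-/

open Finset
open scoped Classical

namespace H851VG

variable {V : Type*} {G : SimpleGraph V}

/-- the ordered `p`-cliques in the link of `u` -/
noncomputable def Lk (G : SimpleGraph V) [Fintype V] (p : ℕ) (u : V) : Finset (Fin p → V) :=
  (T G Finset.univ p).filter (fun Q => ∀ j, G.Adj u (Q j))

theorem mem_Lk [Fintype V] {p : ℕ} {u : V} {Q : Fin p → V} :
    Q ∈ Lk G p u ↔ (∀ i j, i ≠ j → G.Adj (Q i) (Q j)) ∧ ∀ j, G.Adj u (Q j) := by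
  simp [Lk, mem_T]

theorem T_filter_le [Fintype V] (H : Finset V) (p : ℕ) (y : V) :
    ((T G H p).filter (fun Q => ∀ j, G.Adj y (Q j))).card ≤ (Lk G p y).card := by
  apply Finset.card_le_card
  intro Q hQ
  have h := Finset.mem_filter.1 hQ
  exact mem_Lk.2 ⟨(mem_T.1 h.1).2, h.2⟩

/-- cliques meeting `N` -/
theorem count_meet [Fintype V] (H N : Finset V) (p L : ℕ)
    (hL : ∀ y ∈ N, (Lk G p y).card ≤ L) :
    ((T G H (p + 1)).filter (fun K => ∃ i, K i ∈ N)).card ≤ (p + 1) * (N.card * L) := by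
  have h1 : ((T G H (p + 1)).filter (fun K => ∃ i, K i ∈ N)) ⊆
      Finset.univ.biUnion (fun i : Fin (p + 1) => (T G H (p + 1)).filter (fun K => K i ∈ N)) := by
    intro K hK
    have hK := Finset.mem_filter.1 hK
    obtain ⟨i, hi⟩ := hK.2
    exact Finset.mem_biUnion.2 ⟨i, Finset.mem_univ _, Finset.mem_filter.2 ⟨hK.1, hi⟩⟩
  refine (Finset.card_le_card h1).trans ?_
  refine (Finset.card_biUnion_le_card_mul _ _ (N.card * L) ?_).trans (by simp)
  intro i _
  rw [Finset.card_filter]
  have h2 := sum_T (G := G) (S := H) (r := p) i (fun z _ => if z ∈ N then 1 else 0)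
  rw [h2]
  calc ∑ Q ∈ T G H p, ∑ z ∈ cn G H Q, (if z ∈ N then 1 else 0)
      ≤ ∑ Q ∈ T G H p, ∑ y ∈ N, (if ∀ j, G.Adj y (Q j) then 1 else 0) := by
        refine Finset.sum_le_sum (fun Q _ => ?_)
        rw [← Finset.card_filter, ← Finset.card_filter]
        apply Finset.card_le_card
        intro z hz
        have hz := Finset.mem_filter.1 hz
        exact Finset.mem_filter.2 ⟨hz.2, (mem_cn.1 hz.1).2⟩
    _ = ∑ y ∈ N, ((T G H p).filter (fun Q => ∀ j, G.Adj y (Q j))).card := by
        rw [Finset.sum_comm]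
        refine Finset.sum_congr rfl (fun y _ => ?_)
        rw [Finset.card_filter]
    _ ≤ ∑ _y ∈ N, L := Finset.sum_le_sum (fun y hy => (T_filter_le H p y).trans (hL y hy))
    _ = N.card * L := by rw [Finset.sum_const, smul_eq_mul]

/-- vertices of `N` missing at most one vertex of the clique -/
theorem count_bad [Fintype V] (H N : Finset V) (p L : ℕ)
    (hL : ∀ y ∈ N, (Lk G p y).card ≤ L) :
    ∑ K ∈ T G H (p + 1), (N.filter (fun y => (Setup.M G K y).card ≤ 1)).card ≤
      (p + 1) * (N.card * (L * H.card)) := by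
  have h1 : ∀ K ∈ T G H (p + 1), (N.filter (fun y => (Setup.M G K y).card ≤ 1)).card ≤
      ∑ i : Fin (p + 1), ∑ y ∈ N, (if ∀ j, G.Adj y (K (i.succAbove j)) then 1 else 0) := by
    intro K _
    rw [Finset.card_filter, Finset.sum_comm]
    refine Finset.sum_le_sum (fun y _ => ?_)
    split_ifs with h
    · -- find `i` such that `y` is adjacent to all the others
      have : ∃ i : Fin (p + 1), ∀ j, G.Adj y (K (i.succAbove j)) := by
        rcases Finset.eq_empty_or_nonempty (Setup.M G K y) with he | ⟨i, hi⟩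
        · refine ⟨0, fun j => ?_⟩
          by_contra hj
          have := Setup.mem_M.2 hj
          rw [he] at this
          exact absurd this (Finset.notMem_empty _)
        · refine ⟨i, fun j => ?_⟩
          by_contra hj
          have := Finset.card_le_one.1 h _ (Setup.mem_M.2 hj) i hi
          exact Fin.succAbove_ne i j this
      obtain ⟨i, hi⟩ := this
      calc 1 = (if ∀ j, G.Adj y (K (i.succAbove j)) then 1 else 0) := by rw [if_pos hi]
        _ ≤ _ := Finset.single_le_sum
            (f := fun i : Fin (p + 1) => if ∀ j, G.Adj y (K (i.succAbove j)) then 1 else 0)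
            (fun _ _ => Nat.zero_le _) (Finset.mem_univ i)
    · exact Nat.zero_le _
  refine (Finset.sum_le_sum h1).trans ?_
  rw [Finset.sum_comm]
  have h2 : ∀ i : Fin (p + 1), ∑ K ∈ T G H (p + 1), ∑ y ∈ N,
      (if ∀ j, G.Adj y (K (i.succAbove j)) then 1 else 0) ≤ N.card * (L * H.card) := by
    intro i
    rw [sum_T (G := G) (S := H) (r := p) i
      (fun _ Q => ∑ y ∈ N, (if ∀ j, G.Adj y (Q j) then 1 else 0))]
    calc ∑ Q ∈ T G H p, ∑ _z ∈ cn G H Q, ∑ y ∈ N, (if ∀ j, G.Adj y (Q j) then 1 else 0)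
        ≤ ∑ Q ∈ T G H p, H.card * ∑ y ∈ N, (if ∀ j, G.Adj y (Q j) then 1 else 0) := by
          refine Finset.sum_le_sum (fun Q _ => ?_)
          rw [Finset.sum_const, smul_eq_mul]
          exact Nat.mul_le_mul_right _ (Finset.card_filter_le _ _)
      _ = H.card * ∑ y ∈ N, ((T G H p).filter (fun Q => ∀ j, G.Adj y (Q j))).card := by
          rw [← Finset.mul_sum, Finset.sum_comm]
          congr 1
          refine Finset.sum_congr rfl (fun y _ => ?_)
          rw [Finset.card_filter]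
      _ ≤ H.card * ∑ _y ∈ N, L := by
          refine Nat.mul_le_mul_left _ (Finset.sum_le_sum (fun y hy => ?_))
          exact (T_filter_le H p y).trans (hL y hy)
      _ = N.card * (L * H.card) := by rw [Finset.sum_const, smul_eq_mul]; ring
  calc ∑ i : Fin (p + 1), ∑ K ∈ T G H (p + 1), ∑ y ∈ N,
        (if ∀ j, G.Adj y (K (i.succAbove j)) then 1 else 0)
      ≤ ∑ _i : Fin (p + 1), N.card * (L * H.card) := Finset.sum_le_sum (fun i _ => h2 i)
    _ = _ := by simp

namespace Setup

variable {p : ℕ} (S : Setup G p)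

theorem upper_core [Fintype V] (hp : 2 ≤ p) (η γ : ℝ) (hη : 0 < η) (hη1 : p * η ≤ 1)
    (hγ : 2 * (p + 1) * γ < (p * η) ^ (p + 1) * η * (η / 2) ^ (p + 2))
    (hE : (1 - 1 / p + η) * ((S.D ∪ S.N).card : ℝ) ^ 2 + η / 2 * (Fintype.card V : ℝ) ^ 2 ≤
      H851VC.e2 G (S.D ∪ S.N))
    (hlink : ∀ v ∈ S.N, ((Lk G p v).card : ℝ) ≤ γ * (Fintype.card V : ℝ) ^ p)
    (hn : 6 < η ^ 2 * Fintype.card V) :
    False := by
  set n : ℝ := (Fintype.card V : ℝ) with hndef
  have hpr : (2 : ℝ) ≤ p := by exact_mod_cast hp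
  have hp0 : (0 : ℝ) < p := by linarith
  have hη2 : η ≤ 1 / 2 := by nlinarith
  set ζ : ℝ := 1 - 1 / (p : ℝ) + η with hζ
  have hζ1 : ζ ≤ 1 := by
    have : η ≤ 1 / p := by rw [le_div_iff₀ hp0]; linarith
    rw [hζ]; linarith
  have hζ0 : 0 ≤ ζ := by
    have : 1 / (p : ℝ) ≤ 1 / 2 := one_div_le_one_div_of_le (by norm_num) hpr
    rw [hζ]; linarith
  have hn0 : 0 < n := by
    by_contra hcon
    push Not at hcon
    have : η ^ 2 * n ≤ 0 := mul_nonpos_of_nonneg_of_nonpos (by positivity) hcon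
    linarith
  set W := (S.D ∪ S.N).powerset.filter (fun H => ∀ x ∈ H, x ∈ S.D → S.r x ∈ H) with hW
  set ψ : Finset V → ℝ := fun H => (H851VC.e2 G H : ℝ) - ζ * (H.card : ℝ) ^ 2 with hψ
  have hWne : (S.D ∪ S.N) ∈ W := by
    rw [hW, Finset.mem_filter, Finset.mem_powerset]
    exact ⟨subset_rfl, fun x _ hx => Finset.mem_union_right _ (S.hr x hx)⟩
  obtain ⟨H, hHW, hmax⟩ := Finset.exists_max_image W ψ ⟨_, hWne⟩
  have hHW' := Finset.mem_filter.1 hHW
  have hHsub : H ⊆ S.D ∪ S.N := Finset.mem_powerset.1 hHW'.1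
  have hval : ∀ x ∈ H, x ∈ S.D → S.r x ∈ H := hHW'.2
  have hψH : η / 2 * n ^ 2 ≤ ψ H := by
    have := hmax _ hWne
    simp only [hψ] at this ⊢
    linarith
  have hm2 : η / 2 * n ^ 2 ≤ (H.card : ℝ) ^ 2 := by
    have h1 : (H851VC.e2 G H : ℝ) ≤ (H.card : ℝ) ^ 2 := by exact_mod_cast H851VC.e2_le G H
    have h2 : 0 ≤ ζ * (H.card : ℝ) ^ 2 := by positivity
    simp only [hψ] at hψH
    linarith
  set m : ℝ := (H.card : ℝ) with hmdef
  have hm0 : 0 ≤ m := by positivity
  have hmn : m ≤ n := by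
    rw [hmdef, hndef]; exact_mod_cast Finset.card_le_univ _
  have hmlow : η / 2 * n ≤ m := by
    apply le_of_sq_le_sq _ hm0
    refine le_trans ?_ hm2
    have : (η / 2) ^ 2 ≤ η / 2 := by nlinarith
    calc (η / 2 * n) ^ 2 = (η / 2) ^ 2 * n ^ 2 := by ring
      _ ≤ _ := mul_le_mul_of_nonneg_right this (by positivity)
  have hηm : 3 ≤ η * m := by
    have := mul_le_mul_of_nonneg_left hmlow hη.le
    nlinarith
  -- degrees of the vertices of `D`
  have hdeg : ∀ x ∈ H, x ∈ S.D → ζ * m - 1 ≤ (H851VC.dg G H x : ℝ) := by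
    intro x hx hxD
    have hTW : H \ {x} ∈ W := by
      rw [hW, Finset.mem_filter, Finset.mem_powerset]
      refine ⟨Finset.sdiff_subset.trans hHsub, fun x' hx' hx'D => ?_⟩
      rw [Finset.mem_sdiff, Finset.mem_singleton]
      refine ⟨hval x' (Finset.mem_sdiff.1 hx').1 hx'D, fun h => ?_⟩
      exact S.hDN x hxD (h ▸ S.hr x' hx'D)
    have h1 := hmax _ hTW
    have h2 : (H851VC.e2 G H : ℝ) ≤ H851VC.e2 G (H \ {x}) + 2 * (H851VC.dg G H x : ℝ) := by
      have := H851VC.e2_sdiff G H {x} (Finset.singleton_subset_iff.2 hx)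
      rw [Finset.sum_singleton] at this
      exact_mod_cast this
    have h3 : ((H \ {x}).card : ℝ) = m - 1 := by
      rw [Finset.card_sdiff_of_subset (Finset.singleton_subset_iff.2 hx),
        Nat.cast_sub (Finset.card_le_card (Finset.singleton_subset_iff.2 hx)),
        Finset.card_singleton, Nat.cast_one]
    simp only [hψ] at h1
    rw [h3] at h1
    nlinarith
  -- number of cliques
  have hclq : (p * η * m) ^ (p + 1) ≤ ((T G H (p + 1)).card : ℝ) := by
    have h1 := supersat_count (G := G) H (1 - ζ) (by linarith) (by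
      simp only [hψ] at hψH
      have : 0 ≤ η / 2 * n ^ 2 := by positivity
      rw [sub_sub_cancel]
      linarith) p (p * η) (by positivity) (by
        rw [hζ]
        have : (p : ℝ) * (1 / p) = 1 := by field_simp
        nlinarith) (p + 1) le_rfl
    exact h1
  -- each clique is bad
  have hbad : ∀ K ∈ T G H (p + 1), (∃ i, K i ∈ S.N) ∨
      η * m ≤ ((S.N.filter (fun y => (M G K y).card ≤ 1)).card : ℝ) := by
    intro K hK
    by_cases hKN : ∃ i, K i ∈ S.N
    · exact Or.inl hKN
    · right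
      push Not at hKN
      have hK' := mem_T.1 hK
      have hKD : ∀ i, K i ∈ S.D := fun i =>
        (Finset.mem_union.1 (hHsub (hK'.1 i))).resolve_right (hKN i)
      have h1 := S.clique_bound hK'.2 H hval hHsub hKD
      have h2 : ((H ∩ S.N).filter (fun y => (M G K y).card ≤ 1)).card ≤
          (S.N.filter (fun y => (M G K y).card ≤ 1)).card :=
        Finset.card_le_card (Finset.filter_subset_filter _ Finset.inter_subset_right)
      have h3 : ((p : ℝ) + 1) * (ζ * m - 1) ≤ ∑ i, (H851VC.dg G H (K i) : ℝ) := by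
        calc ((p : ℝ) + 1) * (ζ * m - 1) = ∑ _i : Fin (p + 1), (ζ * m - 1) := by
              rw [Finset.sum_const, Finset.card_univ, Fintype.card_fin, nsmul_eq_mul]
              push_cast
              ring
          _ ≤ _ := Finset.sum_le_sum (fun i _ => hdeg _ (hK'.1 i) (hKD i))
      have h4 : 2 * ∑ i, (H851VC.dg G H (K i) : ℝ) + 3 * m ≤ 2 * ((p + 1) * m) + (p + 1) +
          ((S.N.filter (fun y => (M G K y).card ≤ 1)).card : ℝ) := by
        have : 2 * ∑ i, H851VC.dg G H (K i) + 3 * H.card ≤ 2 * ((p + 1) * H.card) + (p + 1) +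
          (S.N.filter (fun y => (M G K y).card ≤ 1)).card := by omega
        rw [hmdef]; exact_mod_cast this
      have h5 : (p : ℝ) * (1 / p) = 1 := by field_simp
      have h6 : 1 / (p : ℝ) ≤ 1 / 2 := one_div_le_one_div_of_le (by norm_num) hpr
      have h7 : ((p : ℝ) + 1) * (ζ * m) = (p + 1) * m - m - (1 / p) * m + (p + 1) * (η * m) := by
        rw [hζ]
        linear_combination (-m) * h5
      nlinarith [mul_le_mul_of_nonneg_right h6 hm0, mul_le_mul_of_nonneg_left hηm hp0.le]
  -- the counts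
  have hLnat : ∃ L : ℕ, (∀ y ∈ S.N, (Lk G p y).card ≤ L) ∧ (L : ℝ) ≤ γ * n ^ p ∨ S.N = ∅ := by
    by_cases hN : S.N = ∅
    · exact ⟨0, Or.inr hN⟩
    · obtain ⟨y0, hy0⟩ := Finset.nonempty_iff_ne_empty.2 hN
      have hpos : 0 ≤ γ * n ^ p := le_trans (by positivity) (hlink y0 hy0)
      refine ⟨⌊γ * n ^ p⌋₊, Or.inl ⟨fun y hy => Nat.le_floor (hlink y hy), Nat.floor_le hpos⟩⟩
  have hTpos : 0 < ((T G H (p + 1)).card : ℝ) := by
    have : 0 < (p * η * m) ^ (p + 1) := by
      have : 0 < m := by nlinarith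
      positivity
    linarith
  obtain ⟨L, ⟨hL, hLr⟩ | hNe⟩ := hLnat
  · have c1 := count_meet (G := G) H S.N p L hL
    have c2 := count_bad (G := G) H S.N p L hL
    have hNn : (S.N.card : ℝ) ≤ n := by rw [hndef]; exact_mod_cast Finset.card_le_univ _
    have hL0 : (0 : ℝ) ≤ L := by positivity
    have hsum : ((T G H (p + 1)).card : ℝ) * (η * m) ≤
        (((T G H (p + 1)).filter (fun K => ∃ i, K i ∈ S.N)).card : ℝ) * (η * m) +
        ∑ K ∈ T G H (p + 1), ((S.N.filter (fun y => (M G K y).card ≤ 1)).card : ℝ) := by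
      have e1 : ((T G H (p + 1)).card : ℝ) * (η * m) = ∑ _K ∈ T G H (p + 1), (η * m) := by
        rw [Finset.sum_const, nsmul_eq_mul]
      have e2 : (((T G H (p + 1)).filter (fun K => ∃ i, K i ∈ S.N)).card : ℝ) * (η * m) =
          ∑ K ∈ T G H (p + 1), (if ∃ i, K i ∈ S.N then (η * m) else 0) := by
        rw [← Finset.sum_filter, Finset.sum_const, nsmul_eq_mul]
      rw [e1, e2, ← Finset.sum_add_distrib]
      refine Finset.sum_le_sum (fun K hK => ?_)
      have hc0 : (0 : ℝ) ≤ ((S.N.filter (fun y => (M G K y).card ≤ 1)).card : ℝ) := by positivity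
      rcases hbad K hK with h | h
      · rw [if_pos h]; linarith
      · split_ifs
        · linarith
        · linarith
    have c1' : (((T G H (p + 1)).filter (fun K => ∃ i, K i ∈ S.N)).card : ℝ) ≤
        (p + 1) * (n * (γ * n ^ p)) := by
      have : (((T G H (p + 1)).filter (fun K => ∃ i, K i ∈ S.N)).card : ℝ) ≤
          (p + 1) * (S.N.card * L) := by exact_mod_cast c1
      refine this.trans ?_
      gcongr
    have c2' : ∑ K ∈ T G H (p + 1), ((S.N.filter (fun y => (M G K y).card ≤ 1)).card : ℝ) ≤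
        (p + 1) * (n * (γ * n ^ p * n)) := by
      have : ∑ K ∈ T G H (p + 1), ((S.N.filter (fun y => (M G K y).card ≤ 1)).card : ℝ) ≤
          (p + 1) * (S.N.card * (L * m)) := by rw [hmdef]; exact_mod_cast c2
      refine this.trans ?_
      have hγn : 0 ≤ γ * n ^ p := hL0.trans hLr
      gcongr
    have hγn : 0 ≤ γ * n ^ p := hL0.trans hLr
    have hηmn : η * m ≤ n := by nlinarith
    have hfin : ((T G H (p + 1)).card : ℝ) * (η * m) ≤ 2 * (p + 1) * γ * n ^ (p + 2) := by
      refine hsum.trans ?_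
      have h1 : (((T G H (p + 1)).filter (fun K => ∃ i, K i ∈ S.N)).card : ℝ) * (η * m) ≤
          ((p + 1) * (n * (γ * n ^ p))) * n := by
        apply mul_le_mul c1' hηmn (by positivity)
        positivity
      calc _ ≤ ((p + 1) * (n * (γ * n ^ p))) * n + (p + 1) * (n * (γ * n ^ p * n)) :=
            add_le_add h1 c2'
        _ = _ := by ring
    have hlow : (p * η) ^ (p + 1) * η * (η / 2) ^ (p + 2) * n ^ (p + 2) ≤
        ((T G H (p + 1)).card : ℝ) * (η * m) := by
      calc (p * η) ^ (p + 1) * η * (η / 2) ^ (p + 2) * n ^ (p + 2)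
          = (p * η) ^ (p + 1) * η * (η / 2 * n) ^ (p + 2) := by rw [mul_pow]; ring
        _ ≤ (p * η) ^ (p + 1) * η * m ^ (p + 2) := by
            apply mul_le_mul_of_nonneg_left _ (by positivity)
            exact pow_le_pow_left₀ (by positivity) hmlow _
        _ = (p * η * m) ^ (p + 1) * (η * m) := by rw [mul_pow]; ring
        _ ≤ _ := mul_le_mul_of_nonneg_right hclq (by positivity)
    have hnp : 0 < n ^ (p + 2) := by positivity
    have := mul_lt_mul_of_pos_right hγ hnp
    linarith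
  · -- `N` is empty: no clique is bad
    obtain ⟨K, hK⟩ : (T G H (p + 1)).Nonempty := by
      rw [← Finset.card_pos]; exact_mod_cast hTpos
    rcases hbad K hK with ⟨i, hi⟩ | h
    · rw [hNe] at hi; exact absurd hi (Finset.notMem_empty _)
    · rw [hNe] at h
      simp at h
      linarith

end Setup

end H851VG
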