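import Pool.Agent.H851.VG.GC
import Pool.Agent.H851.VC.UF

/-!
Upper bound for general `k`: construction of the setup from a vertex-critical graph.
-/

open Finset
open scoped Classical

namespace H851VG

theorem third {p : ℕ} (f : Fin p → Fin (p + 1)) (hf : Function.Injective f) (x y : Fin (p + 1))
    (hx : ∀ j, x ≠ f j) (hy : ∀ j, y ≠ f j) : x = y := by
  have h : ((Finset.univ : Finset (Fin (p + 1))) \ Finset.univ.image f).card = 1 := by
    rw [Finset.card_sdiff_of_subset (Finset.subset_univ _), Finset.card_image_of_injective _ hf]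
    simp
  refine Finset.card_le_one.1 h.le x ?_ y ?_
  · simp only [Finset.mem_sdiff, Finset.mem_univ, true_and, Finset.mem_image, not_exists]
    exact fun j h => hx j h.symm
  · simp only [Finset.mem_sdiff, Finset.mem_univ, true_and, Finset.mem_image, not_exists]
    exact fun j h => hy j h.symm

variable {V : Type*} (G : SimpleGraph V)

theorem exists_avoid [Fintype V] {p : ℕ} (A : Finset (Fin p → V))
    (hA : p * Fintype.card V ^ (p - 1) < A.card) (v : V) : ∃ Q ∈ A, ∀ j, Q j ≠ v := by
  by_contra hcon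
  push Not at hcon
  have h1 : A ⊆ Finset.univ.biUnion (fun j : Fin p =>
      Fintype.piFinset (fun i : Fin p => if i = j then ({v} : Finset V) else Finset.univ)) := by
    intro Q hQ
    obtain ⟨j, hj⟩ := hcon Q hQ
    refine Finset.mem_biUnion.2 ⟨j, Finset.mem_univ _, ?_⟩
    rw [Fintype.mem_piFinset]
    intro i
    split_ifs with h
    · rw [h, hj]; exact Finset.mem_singleton_self _
    · exact Finset.mem_univ _
  have h2 := (Finset.card_le_card h1).trans
    (Finset.card_biUnion_le_card_mul _ _ (Fintype.card V ^ (p - 1)) (by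
      intro j _
      rw [Fintype.card_piFinset]
      have : ∀ i : Fin p, (if i = j then ({v} : Finset V) else Finset.univ).card =
          if i = j then 1 else Fintype.card V := by
        intro i
        split_ifs <;> simp
      rw [Finset.prod_congr rfl (fun i _ => this i), Finset.prod_ite]
      simp only [Finset.prod_const_one, one_mul, Finset.prod_const]
      have h3 : (Finset.univ.filter (fun i : Fin p => ¬ i = j)).card = p - 1 := by
        rw [Finset.filter_not, Finset.filter_eq', if_pos (Finset.mem_univ _),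
          Finset.card_sdiff_of_subset (Finset.subset_univ _)]
        simp
      rw [h3]))
  simp only [Finset.card_univ, Fintype.card_fin] at h2
  omega

variable [Fintype V]

theorem family_bound (p : ℕ) (γ : ℝ) (U : Finset V)
    (h1 : ∀ u ∈ U, γ * (Fintype.card V : ℝ) ^ p ≤ (Lk G p u).card)
    (h2 : ∀ u ∈ U, ∀ u' ∈ U, u ≠ u' → (Lk G p u ∩ Lk G p u').card ≤
      p * Fintype.card V ^ (p - 1)) :
    (U.card : ℝ) * (γ * (Fintype.card V : ℝ) ^ p) ≤
      (U.biUnion (Lk G p)).card + (U.card : ℝ) ^ 2 * (p * (Fintype.card V : ℝ) ^ (p - 1)) := by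
  induction U using Finset.induction_on with
  | empty => simp
  | insert a U ha ih =>
    have ih' := ih (fun u hu => h1 u (Finset.mem_insert_of_mem hu))
      (fun u hu u' hu' => h2 u (Finset.mem_insert_of_mem hu) u' (Finset.mem_insert_of_mem hu'))
    rw [Finset.card_insert_of_notMem ha, Finset.biUnion_insert]
    have h3 : (Lk G p a ∩ U.biUnion (Lk G p)).card ≤ U.card * (p * Fintype.card V ^ (p - 1)) := by
      rw [Finset.inter_biUnion]
      refine Finset.card_biUnion_le_card_mul _ _ _ (fun u hu => ?_)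
      exact h2 a (Finset.mem_insert_self _ _) u (Finset.mem_insert_of_mem hu)
        (fun h => ha (h ▸ hu))
    have h4 : (Lk G p a ∪ U.biUnion (Lk G p)).card + (Lk G p a ∩ U.biUnion (Lk G p)).card =
        (Lk G p a).card + (U.biUnion (Lk G p)).card := Finset.card_union_add_card_inter _ _
    have h5 : ((Lk G p a).card : ℝ) + (U.biUnion (Lk G p)).card ≤
        (Lk G p a ∪ U.biUnion (Lk G p)).card +
          U.card * (p * (Fintype.card V : ℝ) ^ (p - 1)) := by
      have : (Lk G p a).card + (U.biUnion (Lk G p)).card ≤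
        (Lk G p a ∪ U.biUnion (Lk G p)).card + U.card * (p * Fintype.card V ^ (p - 1)) := by omega
      exact_mod_cast this
    have h6 := h1 a (Finset.mem_insert_self _ _)
    have h7 : (0 : ℝ) ≤ p * (Fintype.card V : ℝ) ^ (p - 1) := by positivity
    have h8 : (0 : ℝ) ≤ (U.card : ℝ) := by positivity
    push_cast
    nlinarith [mul_nonneg h7 h8]

theorem family_small (p : ℕ) (hp : 1 ≤ p) (γ : ℝ) (hγ : 0 < γ)
    (hn : p * (⌈2 / γ⌉₊ : ℝ) ^ 2 < Fintype.card V)
    (U : Finset V)
    (h1 : ∀ u ∈ U, γ * (Fintype.card V : ℝ) ^ p ≤ (Lk G p u).card)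
    (h2 : ∀ u ∈ U, ∀ u' ∈ U, u ≠ u' → (Lk G p u ∩ Lk G p u').card ≤
      p * Fintype.card V ^ (p - 1)) :
    U.card ≤ ⌈2 / γ⌉₊ := by
  by_contra hcon
  push Not at hcon
  obtain ⟨U', hU', hU'c⟩ := Finset.exists_subset_card_eq hcon.le
  have h3 := family_bound G p γ U' (fun u hu => h1 u (hU' hu))
    (fun u hu u' hu' => h2 u (hU' hu) u' (hU' hu'))
  rw [hU'c] at h3
  set k : ℝ := (⌈2 / γ⌉₊ : ℝ) with hk
  set n : ℝ := (Fintype.card V : ℝ) with hn'
  have h4 : ((U'.biUnion (Lk G p)).card : ℝ) ≤ n ^ p := by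
    have : (U'.biUnion (Lk G p)).card ≤ Fintype.card V ^ p := by
      calc (U'.biUnion (Lk G p)).card ≤ Fintype.card (Fin p → V) := Finset.card_le_univ _
        _ = _ := by rw [Fintype.card_fun, Fintype.card_fin]
    rw [hn']; exact_mod_cast this
  have h5 : 2 ≤ k * γ := by
    have : 2 / γ ≤ k := Nat.le_ceil _
    rwa [div_le_iff₀ hγ] at this
  have hn0 : 0 < n := lt_of_le_of_lt (by positivity) hn
  have hpow : n ^ p = n ^ (p - 1) * n := by
    rw [← pow_succ]; congr 1; omega
  have hpm : 0 < n ^ (p - 1) := by positivity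
  have h6 : 2 * n ^ p ≤ k * (γ * n ^ p) := by
    have := mul_le_mul_of_nonneg_right h5 (by positivity : 0 ≤ n ^ p)
    linarith
  have h7 : n ^ (p - 1) * n ≤ n ^ (p - 1) * (p * k ^ 2) := by
    rw [← hpow]
    nlinarith
  have h8 := le_of_mul_le_mul_left h7 hpm
  linarith

theorem upper (p : ℕ) (hp : 2 ≤ p) (η γ : ℝ) (hη : 0 < η) (hη1 : p * η ≤ 1) (hγ0 : 0 < γ)
    (hγ : 2 * (p + 1) * γ < (p * η) ^ (p + 1) * η * (η / 2) ^ (p + 2))
    (hcol : ∀ v, ∃ f : V → Fin (p + 1), ∀ u w, u ≠ v → w ≠ v → G.Adj u w → f u ≠ f w)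
    (hnot : ∀ f : V → Fin (p + 1), ∃ u w, G.Adj u w ∧ f u = f w)
    (k : ℕ) (hk : k = ⌈2 / γ⌉₊)
    (hn1 : 2 * p + 3 + k + p * (k : ℝ) ^ 2 < Fintype.card V)
    (hn2 : 4 * ((k : ℝ) + k ^ 2) < η * Fintype.card V)
    (hn3 : 6 < η ^ 2 * Fintype.card V) :
    (H851VC.e2 G Finset.univ : ℝ) < (1 - 1 / p + 2 * η) * (Fintype.card V : ℝ) ^ 2 := by
  by_contra hcon
  push Not at hcon
  set n : ℝ := (Fintype.card V : ℝ) with hn
  choose c hc using hcol
  -- every colour appears around `v`
  have hext : ∀ v κ, ∃ y, G.Adj v y ∧ c v y = κ := by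
    intro v κ
    by_contra hno
    push Not at hno
    obtain ⟨u, w, huw, he⟩ := hnot (fun x => if x = v then κ else c v x)
    by_cases hu : u = v
    · subst hu
      have hw : w ≠ u := huw.ne'
      simp only [if_true, if_neg hw] at he
      exact hno w huw he.symm
    · by_cases hw : w = v
      · subst hw
        simp only [if_true, if_neg hu] at he
        exact hno u huw.symm he
      · simp only [if_neg hu, if_neg hw] at he
        exact hc v u w hu hw huw he
  have hcard5 : 2 * p + 3 + k < Fintype.card V := by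
    have : (2 : ℝ) * p + 3 + k < Fintype.card V := by
      have : (0 : ℝ) ≤ p * (k : ℝ) ^ 2 := by positivity
      linarith
    exact_mod_cast this
  -- the dense vertices and the classes
  set D0 : Finset V := Finset.univ.filter (fun u => γ * n ^ p ≤ (Lk G p u).card) with hD0
  set Fam : Finset (Finset V) := D0.powerset.filter (fun U =>
    ∀ u ∈ U, ∀ u' ∈ U, u ≠ u' → (Lk G p u ∩ Lk G p u').card ≤
      p * Fintype.card V ^ (p - 1)) with hFam
  have hFamne : Fam.Nonempty := ⟨∅, by rw [hFam, Finset.mem_filter]; simp⟩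
  obtain ⟨U, hU, hUmax⟩ := Finset.exists_max_image Fam Finset.card hFamne
  have hU' := Finset.mem_filter.1 hU
  have hUD0 : U ⊆ D0 := Finset.mem_powerset.1 hU'.1
  have hUc : U.card ≤ k := by
    rw [hk]
    apply family_small G p (by omega) γ hγ0
    · rw [← hk]
      have : (0 : ℝ) ≤ 2 * p + 3 + (k : ℝ) := by positivity
      linarith
    · intro u hu
      exact (Finset.mem_filter.1 (hUD0 hu)).2
    · exact hU'.2
  have hrep : ∀ u, u ∈ D0 → ∃ t ∈ U, u = t ∨
      p * Fintype.card V ^ (p - 1) < (Lk G p u ∩ Lk G p t).card := by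
    intro u hu
    by_contra hno
    push Not at hno
    have huU : u ∉ U := fun h => (hno u h).1 rfl
    have : insert u U ∈ Fam := by
      rw [hFam, Finset.mem_filter, Finset.mem_powerset]
      refine ⟨Finset.insert_subset_iff.2 ⟨hu, hUD0⟩, ?_⟩
      intro a ha b hb hab
      rcases Finset.mem_insert.1 ha with ha1 | ha1
      · rcases Finset.mem_insert.1 hb with hb1 | hb1
        · exact absurd (ha1.trans hb1.symm) hab
        · rw [ha1]
          exact (hno b hb1).2
      · rcases Finset.mem_insert.1 hb with hb1 | hb1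
        · rw [hb1, Finset.inter_comm]
          exact (hno a ha1).2
        · exact hU'.2 a ha1 b hb1 hab
    have := hUmax _ this
    rw [Finset.card_insert_of_notMem huU] at this
    omega
  choose! ρ hρU hρ using hrep
  have hM : ∀ v, v ∉ U → ∀ u ∈ D0, u ≠ v → c v u = c v (ρ u) := by
    intro v hv u hu huv
    rcases hρ u hu with h | h
    · rw [← h]
    · obtain ⟨Q, hQ, hQv⟩ := exists_avoid _ h v
      have hQu := mem_Lk.1 (Finset.mem_inter.1 hQ).1
      have hQt := mem_Lk.1 (Finset.mem_inter.1 hQ).2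
      have hρv : ρ u ≠ v := fun h => hv (h ▸ hρU u hu)
      apply third (fun j => c v (Q j))
      · intro i j hij
        by_contra hne
        exact hc v _ _ (hQv i) (hQv j) (hQu.1 i j hne) hij
      · intro j
        exact hc v u (Q j) huv (hQv j) (hQu.2 j)
      · intro j
        exact hc v _ (Q j) hρv (hQv j) (hQt.2 j)
  have hInd : ∀ x ∈ D0, ∀ x' ∈ D0, ρ x = ρ x' → ¬ G.Adj x x' := by
    intro x hx x' hx' he hadj
    obtain ⟨v, hv⟩ : ∃ v, v ∉ insert x (insert x' U) := by
      by_contra hall
      push Not at hall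
      have h1 : (Finset.univ : Finset V) ⊆ insert x (insert x' U) := fun z _ => hall z
      have h2 := Finset.card_le_card h1
      have h3 := Finset.card_insert_le x (insert x' U)
      have h4 := Finset.card_insert_le x' U
      rw [Finset.card_univ] at h2
      omega
    simp only [Finset.mem_insert, not_or] at hv
    apply hc v x x' (Ne.symm hv.1) (Ne.symm hv.2.1) hadj
    rw [hM v hv.2.2 x hx (Ne.symm hv.1), hM v hv.2.2 x' hx' (Ne.symm hv.2.1), he]
  -- sensors
  choose r hradj hrc using fun x => hext x (c x (ρ x))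
  set D : Finset V := D0.filter
    (fun x => x ∉ U ∧ ∀ k ∈ D0, G.Adj x k → c x k ≠ c x (ρ x)) with hD
  set N : Finset V := Finset.univ.filter (fun x => x ∉ D0) with hN
  have hDD0 : ∀ x ∈ D, x ∈ D0 := fun x hx => (Finset.mem_filter.1 hx).1
  let S : Setup G p :=
    { c := c
      hc := hc
      D := D
      N := N
      r := r
      hDN := fun x hx h => (Finset.mem_filter.1 h).2 (hDD0 x hx)
      hr := fun x hx => Finset.mem_filter.2 ⟨Finset.mem_univ _, fun h =>
        (Finset.mem_filter.1 hx).2.2 (r x) h (hradj x) (hrc x)⟩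
      hadj := fun x _ => hradj x
      hP := fun x hx k hk h => by
        rw [hrc x]
        exact (Finset.mem_filter.1 hx).2.2 k (hDD0 k hk) h
      hbig := fun A hA => by
        by_contra hall
        push Not at hall
        have h1 : (Finset.univ : Finset V) ⊆ A := fun z _ => hall z
        have h2 := Finset.card_le_card h1
        rw [Finset.card_univ] at h2
        omega }
  -- the exceptional set
  set B : Finset V := Finset.univ \ (D ∪ N) with hB
  have hBc : B.card ≤ k + k ^ 2 := by
    set E : Finset V := D0.filter (fun x => x ∉ U ∧ ∃ k ∈ D0, G.Adj x k ∧ c x k = c x (ρ x))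
      with hE
    have hsub : B ⊆ U ∪ E := by
      intro x hx
      rw [hB, Finset.mem_sdiff, Finset.mem_union, not_or] at hx
      have hxD0 : x ∈ D0 := by
        by_contra h
        exact hx.2.2 (Finset.mem_filter.2 ⟨Finset.mem_univ _, h⟩)
      rw [Finset.mem_union]
      by_cases hxU : x ∈ U
      · exact Or.inl hxU
      · right
        refine Finset.mem_filter.2 ⟨hxD0, hxU, ?_⟩
        by_contra h
        push Not at h
        exact hx.2.1 (Finset.mem_filter.2 ⟨hxD0, hxU, h⟩)
    have hinj : E.card ≤ (U ×ˢ U).card := by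
      have hch : ∀ x, ∃ k, x ∈ E → k ∈ D0 ∧ G.Adj x k ∧ c x k = c x (ρ x) := by
        intro x
        by_cases hx : x ∈ E
        · obtain ⟨k, hk⟩ := (Finset.mem_filter.1 hx).2.2
          exact ⟨k, fun _ => hk⟩
        · exact ⟨x, fun h => absurd h hx⟩
      choose s hs using hch
      apply Finset.card_le_card_of_injOn (fun x => (ρ x, ρ (s x)))
      · intro x hx
        have hx1 := Finset.mem_filter.1 (Finset.mem_coe.1 hx)
        have hx2 := hs x (Finset.mem_coe.1 hx)
        simp only [Finset.coe_product, Set.mem_prod, Finset.mem_coe]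
        exact ⟨hρU x hx1.1, hρU _ hx2.1⟩
      · intro x hx x' hx' he
        have hx1 := Finset.mem_filter.1 (Finset.mem_coe.1 hx)
        have hx2 := hs x (Finset.mem_coe.1 hx)
        have hx1' := Finset.mem_filter.1 (Finset.mem_coe.1 hx')
        have hx2' := hs x' (Finset.mem_coe.1 hx')
        simp only [Prod.mk.injEq] at he
        by_contra hne
        have hne' : x' ≠ x := fun h => hne h.symm
        by_cases hrx : s x' = x
        · apply hInd x' hx1'.1 x hx1.1 he.1.symm
          have := hx2'.2.1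
          rwa [hrx] at this
        · apply hc x x' (s x') hne' hrx hx2'.2.1
          rw [hM x hx1.2.1 x' hx1'.1 hne', hM x hx1.2.1 (s x') hx2'.1 hrx, ← he.2, ← he.1,
            ← hM x hx1.2.1 (s x) hx2.1 hx2.2.1.ne', hx2.2.2]
    calc B.card ≤ (U ∪ E).card := Finset.card_le_card hsub
      _ ≤ U.card + (U ×ˢ U).card :=
          (Finset.card_union_le _ _).trans (Nat.add_le_add_left hinj _)
      _ ≤ k + k ^ 2 := by
          rw [Finset.card_product, ← sq]
          exact Nat.add_le_add hUc (Nat.pow_le_pow_left hUc 2)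
  have hBr : (B.card : ℝ) ≤ k + k ^ 2 := by exact_mod_cast hBc
  have hn0 : 0 < n := by
    rw [hn]; exact_mod_cast (show 0 < Fintype.card V by omega)
  refine S.upper_core hp η γ hη hη1 hγ ?_ ?_ hn3
  · -- many edges remain
    have h1 := H851VC.e2_sdiff G Finset.univ B (Finset.subset_univ _)
    have h2 : Finset.univ \ B = D ∪ N := by rw [hB]; simp
    rw [h2] at h1
    have h3 : ∑ w ∈ B, H851VC.dg G Finset.univ w ≤ B.card * Fintype.card V := by
      calc ∑ w ∈ B, H851VC.dg G Finset.univ w ≤ B.card • Fintype.card V := by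
            apply Finset.sum_le_card_nsmul
            intro w _
            exact H851VC.dg_le G _ w
        _ = _ := by rw [smul_eq_mul]
    have h4 : (H851VC.e2 G Finset.univ : ℝ) ≤ H851VC.e2 G (D ∪ N) + 2 * (B.card * n) := by
      have : H851VC.e2 G Finset.univ ≤
        H851VC.e2 G (D ∪ N) + 2 * (B.card * Fintype.card V) := by omega
      rw [hn]; exact_mod_cast this
    have h5 : ((D ∪ N).card : ℝ) ≤ n := by
      rw [hn]; exact_mod_cast Finset.card_le_univ _
    have h6 : ((D ∪ N).card : ℝ) ^ 2 ≤ n ^ 2 := pow_le_pow_left₀ (by positivity) h5 2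
    have h7 : (B.card : ℝ) * n ≤ (k + k ^ 2) * n := mul_le_mul_of_nonneg_right hBr hn0.le
    have h8 : 4 * ((k : ℝ) + k ^ 2) * n ≤ η * n * n := mul_le_mul_of_nonneg_right hn2.le hn0.le
    have hpr : (2 : ℝ) ≤ p := by exact_mod_cast hp
    have h10 : 1 / (p : ℝ) ≤ 1 / 2 := one_div_le_one_div_of_le (by norm_num) hpr
    have h9 : (1 - 1 / p + η) * ((D ∪ N).card : ℝ) ^ 2 ≤ (1 - 1 / p + η) * n ^ 2 :=
      mul_le_mul_of_nonneg_left h6 (by linarith)
    show (1 - 1 / p + η) * ((D ∪ N).card : ℝ) ^ 2 + η / 2 * n ^ 2 ≤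
      (H851VC.e2 G (D ∪ N) : ℝ)
    nlinarith
  · intro v hv
    have hv' : v ∉ D0 := (Finset.mem_filter.1 hv).2
    by_contra h
    push Not at h
    exact hv' (Finset.mem_filter.2 ⟨Finset.mem_univ _, h.le⟩)

end H851VG
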