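import Pool.Agent.H851.VG.GD
import Pool.Agent.H851.VC.LD

/-!
Lower bound construction for general `k`: a graph `KG pt s` (`s` odd) on `p s^2 + 4 p s + 4 p`
vertices which is not colourable with p + 1 colours.
-/

namespace H851VG

/-- vertices of the construction -/
inductive KV (p s : ℕ) : Type
  | core (i : Fin p) (a b : Fin s)
  | port (i : Fin p) (τ : Bool) (a : Fin s)
  | cyc (i : Fin p) (τ : Bool) (a : Fin s)
  | hub (i : Fin p) (τ : Bool)
  | mid (i : Fin p) (τ : Bool)
  deriving DecidableEq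

namespace KV

/-- the (one-directional) adjacency relation; `pt i` is the partner of the part `i` -/
def rel {p s : ℕ} (pt : Fin p → Fin p) : KV p s → KV p s → Prop
  | core i _ _, core j _ _ => i ≠ j
  | core i a b, port j τ l => (j = i ∧ ((τ = false ∧ l = a) ∨ (τ = true ∧ l = b))) ∨
      (j ≠ i ∧ pt j ≠ i ∧ a.val = 0 ∧ b.val = 0)
  | core i a b, cyc j _ _ => j ≠ i ∧ pt j ≠ i ∧ a.val = 0 ∧ b.val = 0
  | port i τ a, cyc j τ' l => j = i ∧ τ' = τ ∧ l = a
  | cyc i τ a, cyc j τ' l =>
      j = i ∧ τ' = τ ∧ (l.val = a.val + 1 ∨ (a.val = 0 ∧ l.val + 1 = s))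
  | hub i τ, port j τ' _ => j = i ∧ τ' = τ
  | hub i _, core j _ _ => j ≠ i
  | mid i τ, hub j τ' => j = i ∧ τ' = τ
  | mid i τ, mid j τ' => j = i ∧ τ = false ∧ τ' = true
  | mid i τ, core j a b => j ≠ i ∧ ((τ = false ∧ a.val = 0 ∧ b.val = 0) ∨
      (τ = true ∧ a.val = 1 ∧ b.val = 1))
  | _, _ => False

end KV

open KV

variable {p s : ℕ}

/-- the graph of the construction -/
def KG (pt : Fin p → Fin p) (s : ℕ) : SimpleGraph (KV p s) := SimpleGraph.fromRel (KV.rel pt)

theorem KG_adj_of_rel {pt : Fin p → Fin p} {u v : KV p s} (h : KV.rel pt u v) (hne : u ≠ v) :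
    (KG pt s).Adj u v := by
  rw [KG, SimpleGraph.fromRel_adj]
  exact ⟨hne, Or.inl h⟩

/-- an odd cycle cannot be properly coloured with two colours -/
theorem odd_cycle {C : Type*} (P : C → Prop)
    (hP : ∀ u v w, P u → P v → P w → u ≠ v → u ≠ w → v = w) {s : ℕ} (hs : s % 2 = 1)
    (hs1 : 1 < s) (g : Fin s → C)
    (hβ : ∀ i, P (g i)) (h1 : ∀ i l : Fin s, l.val = i.val + 1 → g i ≠ g l)
    (h2 : ∀ i l : Fin s, i.val = 0 → l.val + 1 = s → g i ≠ g l) : False := by
  have key : ∀ m : ℕ, ∀ h : 2 * m < s, g ⟨2 * m, h⟩ = g ⟨0, by omega⟩ := by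
    intro m
    induction m with
    | zero => intro h; rfl
    | succ m ih =>
      intro h
      rw [← ih (by omega)]
      exact hP (g ⟨2 * m + 1, by omega⟩) _ _ (hβ _) (hβ _) (hβ _) (h1 _ _ (by simp; omega))
        (h1 _ _ (by simp)).symm
  have h3 : 2 * ((s - 1) / 2) < s := by omega
  apply h2 ⟨0, by omega⟩ ⟨2 * ((s - 1) / 2), h3⟩ rfl (by simp; omega)
  exact (key _ h3).symm

/-- only two colours avoid `p - 1` different colours -/
theorem two_left (c : Fin p → Fin (p + 1)) (i : Fin p)
    (hc : ∀ j j', j ≠ i → j' ≠ i → j ≠ j' → c j ≠ c j') (u v w : Fin (p + 1))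
    (hu : ∀ j, j ≠ i → u ≠ c j) (hv : ∀ j, j ≠ i → v ≠ c j) (hw : ∀ j, j ≠ i → w ≠ c j)
    (huv : u ≠ v) (huw : u ≠ w) : v = w := by
  apply third (fun j => if j = i then u else c j)
  · intro j j' h
    by_contra hne
    simp only at h
    by_cases h1 : j = i
    · by_cases h2 : j' = i
      · exact hne (h1.trans h2.symm)
      · rw [if_pos h1, if_neg h2] at h
        exact hu j' h2 h
    · by_cases h2 : j' = i
      · rw [if_neg h1, if_pos h2] at h
        exact hu j h1 h.symm
      · rw [if_neg h1, if_neg h2] at h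
        exact hc j j' h1 h2 hne h
  · intro j
    split_ifs with h
    · exact huv.symm
    · exact hv j h
  · intro j
    split_ifs with h
    · exact huw.symm
    · exact hw j h

/-- if all the cores except `core i` are monochromatic then there is no proper colouring -/
theorem no_mono {pt : Fin p → Fin p} (_ : ∀ i, pt i ≠ i) (hs : s % 2 = 1) (hs1 : 1 < s)
    (f : KV p s → Fin (p + 1)) (hf : ∀ u v, (KG pt s).Adj u v → f u ≠ f v) (i : Fin p)
    (c : Fin p → Fin (p + 1)) (hβ : ∀ j, j ≠ i → ∀ a b, f (core j a b) = c j) : False := by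
  have hf' : ∀ u v, KV.rel pt u v → u ≠ v → f u ≠ f v := fun u v h hne =>
    hf u v (KG_adj_of_rel h hne)
  let z : Fin s := ⟨0, by omega⟩
  let o : Fin s := ⟨1, hs1⟩
  have hcd : ∀ j j', j ≠ i → j' ≠ i → j ≠ j' → c j ≠ c j' := by
    intro j j' h1 h2 h3
    rw [← hβ j h1 z z, ← hβ j' h2 z z]
    exact hf' _ _ (by simpa [KV.rel] using h3) (by simp [h3])
  have two := two_left c i hcd
  have hhub : ∀ τ j, j ≠ i → f (hub i τ) ≠ c j := by
    intro τ j hj
    rw [← hβ j hj z z]
    exact hf' _ _ (by simpa [KV.rel] using hj) (by simp)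
  have hmid : ∀ τ j, j ≠ i → f (mid i τ) ≠ c j := by
    intro τ j hj
    cases τ
    · rw [← hβ j hj z z]
      exact hf' _ _ (by simpa [KV.rel, z] using hj) (by simp)
    · rw [← hβ j hj o o]
      exact hf' _ _ (by simpa [KV.rel, o] using hj) (by simp)
  have hcore : ∀ a b j, j ≠ i → f (core i a b) ≠ c j := by
    intro a b j hj
    rw [← hβ j hj z z]
    exact hf' _ _ (by simpa [KV.rel] using hj.symm) (by simp [hj.symm])
  have hmm : f (mid i false) ≠ f (mid i true) := hf' _ _ (by simp [KV.rel]) (by simp)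
  have hmh : ∀ τ, f (mid i τ) ≠ f (hub i τ) := fun τ => hf' _ _ (by simp [KV.rel]) (by simp)
  have e1 : f (hub i false) = f (mid i true) :=
    two (f (mid i false)) _ _ (hmid _) (hhub _) (hmid _) (hmh _) hmm
  have e2 : f (hub i true) = f (mid i false) :=
    two (f (mid i true)) _ _ (hmid _) (hhub _) (hmid _) (hmh _) hmm.symm
  have hport : ∀ τ, ∃ a, f (port i τ a) ≠ c (pt i) := by
    intro τ
    by_contra hno
    push Not at hno
    refine odd_cycle (fun u => ∀ j, j ≠ i → u ≠ c j) two hs hs1 (fun a => f (cyc i τ a)) ?_ ?_ ?_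
    · intro a j hj
      by_cases hjp : j = pt i
      · rw [hjp, ← hno a]
        exact (hf' (port i τ a) (cyc i τ a) (by simp [KV.rel]) (by simp)).symm
      · rw [← hβ j hj z z]
        refine (hf' (core j z z) (cyc i τ a) ?_ (by simp)).symm
        simp only [KV.rel]
        exact ⟨hj.symm, fun h => hjp h.symm, rfl, rfl⟩
    · intro a l h
      refine hf' (cyc i τ a) (cyc i τ l) (by simp [KV.rel, h]) ?_
      intro he
      simp only [cyc.injEq, true_and] at he
      rw [he] at h; omega
    · intro a l h h'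
      refine hf' (cyc i τ a) (cyc i τ l) (by simp [KV.rel, h, h']) ?_
      intro he
      simp only [cyc.injEq, true_and] at he
      rw [he] at h; omega
  have hportP : ∀ τ a, f (port i τ a) ≠ c (pt i) → ∀ j, j ≠ i → f (port i τ a) ≠ c j := by
    intro τ a h j hj
    by_cases hjp : j = pt i
    · rw [hjp]; exact h
    · rw [← hβ j hj z z]
      refine (hf' (core j z z) (port i τ a) ?_ (by simp)).symm
      simp only [KV.rel]
      exact Or.inr ⟨hj.symm, fun h => hjp h.symm, rfl, rfl⟩
  obtain ⟨a, ha⟩ := hport false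
  obtain ⟨b, hb⟩ := hport true
  have p1 : f (hub i false) ≠ f (port i false a) := hf' _ _ (by simp [KV.rel]) (by simp)
  have p2 : f (hub i true) ≠ f (port i true b) := hf' _ _ (by simp [KV.rel]) (by simp)
  have e3 : f (port i false a) = f (mid i false) :=
    two (f (mid i true)) _ _ (hmid _) (hportP _ _ ha) (hmid _) (by rw [← e1]; exact p1) hmm.symm
  have e4 : f (port i true b) = f (mid i true) :=
    two (f (mid i false)) _ _ (hmid _) (hportP _ _ hb) (hmid _) (by rw [← e2]; exact p2) hmm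
  have c1 : f (core i a b) ≠ f (port i false a) := hf' _ _ (by simp [KV.rel]) (by simp)
  have c2 : f (core i a b) ≠ f (port i true b) := hf' _ _ (by simp [KV.rel]) (by simp)
  rw [e3] at c1
  rw [e4] at c2
  exact hmm (two _ _ _ (hcore a b) (hmid _) (hmid _) c1 c2)

theorem KG_not_colorable {pt : Fin p → Fin p} (hp : 0 < p) (hpt : ∀ i, pt i ≠ i) (hs : s % 2 = 1)
    (hs1 : 1 < s) (f : KV p s → Fin (p + 1)) :
    ∃ u v, (KG pt s).Adj u v ∧ f u = f v := by
  by_contra hno
  push Not at hno
  have hf' : ∀ u v, KV.rel pt u v → u ≠ v → f u ≠ f v := fun u v h hne =>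
    hno u v (KG_adj_of_rel h hne)
  let z : Fin s := ⟨0, by omega⟩
  have hcc : ∀ i j, i ≠ j → ∀ a b a' b', f (core i a b) ≠ f (core j a' b') := by
    intro i j hij a b a' b'
    exact hf' _ _ (by simpa [KV.rel] using hij) (by simp [hij])
  have key : ∀ i j, i ≠ j → ∀ a b a' b', f (core i a b) ≠ f (core i z z) →
      f (core j a' b') ≠ f (core j z z) → False := by
    intro i j hij a b a' b' h1 h2
    apply hcc i j hij a b a' b'
    apply third (fun t => f (core t z z))
    · intro t t' ht
      by_contra hne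
      exact hcc t t' hne _ _ _ _ ht
    · intro t
      by_cases h : i = t
      · rw [← h]; exact h1
      · exact hcc i t h _ _ _ _
    · intro t
      by_cases h : j = t
      · rw [← h]; exact h2
      · exact hcc j t h _ _ _ _
  by_cases hA : ∃ i a b, f (core i a b) ≠ f (core i z z)
  · obtain ⟨i, a, b, h1⟩ := hA
    refine no_mono hpt hs hs1 f hno i (fun j => f (core j z z)) (fun j hj a' b' => ?_)
    by_contra h2
    exact key i j hj.symm a b a' b' h1 h2
  · push Not at hA
    exact no_mono hpt hs hs1 f hno ⟨0, hp⟩ (fun j => f (core j z z)) (fun j _ a b => hA j a b)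

end H851VG
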