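import Pool.Agent.H851.VG.HA

/-!
Lower bound construction for general `k`: deleting a core vertex makes the graph colourable.
-/

namespace H851VG

open H851VC (GV colr colr_proper cc choose_cols)

variable {p s : ℕ}

/-- the palette of the gadget of the part `j` when the vertex is deleted in the part `i0` -/
def pal (pt : Fin p → Fin p) (i0 : Fin p) (k : Fin 3) (j : Fin p) : Fin 3 → Option (Fin p) :=
  if j = i0 then ![some i0, none, some (pt i0)]
  else if pt j = i0 then ![some i0, none, some j]
  else ![if k = 0 then some i0 else none, some (pt j), some j]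

/-- a vertex of the gadget of `j` as a vertex of `GV s` -/
def lft (i0 : Fin p) : KV p s → GV s
  | .core j a b => .core (!decide (j = i0)) a b
  | .port j τ a => .port (!decide (j = i0)) τ a
  | .cyc j τ a => .cyc (!decide (j = i0)) τ a
  | .hub j τ => .hub (!decide (j = i0)) τ
  | .mid j τ => .mid (!decide (j = i0)) τ

/-- the index of the gadget -/
def idx : KV p s → Fin p
  | .core j _ _ => j
  | .port j _ _ => j
  | .cyc j _ _ => j
  | .hub j _ => j
  | .mid j _ => j

/-- which palette is used -/
def pidx (i0 : Fin p) : KV p s → Fin p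
  | .mid _ _ => i0
  | x => idx x

/-- the colouring -/
def kcol (pt : Fin p → Fin p) (i0 : Fin p) (a0 b0 : Fin s) (A0 A1 k l : Fin 3) (x : KV p s) :
    Option (Fin p) :=
  pal pt i0 k (pidx i0 x) (colr false a0 b0 A0 A1 k l (lft i0 x))

theorem pal_inj {pt : Fin p → Fin p} (hpt : ∀ i, pt i ≠ i) (i0 : Fin p) (k : Fin 3) (j : Fin p) :
    Function.Injective (pal pt i0 k j) := by
  unfold pal
  split_ifs with h1 h2 h3
  · intro x y h
    fin_cases x <;> fin_cases y <;> simp_all [(hpt i0).symm]
  · intro x y h
    fin_cases x <;> fin_cases y <;> simp_all [Ne.symm h1]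
  · intro x y h
    fin_cases x <;> fin_cases y <;> simp_all [Ne.symm h1, Ne.symm h2, hpt j, (hpt j).symm]
  · intro x y h
    fin_cases x <;> fin_cases y <;> simp_all [Ne.symm h1, Ne.symm h2, hpt j, (hpt j).symm]

/-- colours other than `2` of the palette of `i0` -/
theorem pal_i0 {pt : Fin p → Fin p} (i0 : Fin p) (k x : Fin 3) (hx : x ≠ 2) (j : Fin p)
    (hj : j ≠ i0) : pal pt i0 k i0 x ≠ some j := by
  unfold pal
  rw [if_pos rfl]
  fin_cases x
  · simpa using hj.symm
  · simp
  · exact absurd rfl hx

theorem pal_two {pt : Fin p → Fin p} (i0 : Fin p) (k : Fin 3) (j : Fin p)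
    (hj : j ≠ i0) : pal pt i0 k j 2 = some j := by
  unfold pal
  rw [if_neg hj]
  split_ifs <;> rfl

/-- colours used by the gadget of `j` are not the colour of a core `i` outside `{j, pt j}` -/
theorem pal_some {pt : Fin p → Fin p} (i0 : Fin p) (k x : Fin 3) (i j : Fin p)
    (hij : j ≠ i) (hi : i ≠ i0) (hp : pt j ≠ i) : pal pt i0 k j x ≠ some i := by
  unfold pal
  split_ifs with h1 h2 h3
  · subst h1
    fin_cases x
    · simpa using hi.symm
    · simp
    · simpa using hp
  · fin_cases x
    · simpa using hi.symm
    · simp
    · simpa using hij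
  · fin_cases x
    · simpa using hi.symm
    · simpa using hp
    · simpa using hij
  · fin_cases x
    · simp
    · simpa using hp
    · simpa using hij

/-- colours used by the gadget of `j` are not the colour of the core `i0` at (0, 0) -/
theorem pal_core {pt : Fin p → Fin p} (i0 : Fin p) (k x y : Fin 3) (j : Fin p)
    (hj : j ≠ i0) (hp : pt j ≠ i0) (hk : k ≠ 2) (hy : y ≠ 2) (hky : k ≠ y) :
    pal pt i0 k i0 y ≠ pal pt i0 k j x := by
  unfold pal
  rw [if_pos rfl, if_neg hj, if_neg hp]
  fin_cases y
  · have : k = 1 := by revert hk hky; revert k; decide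
    subst this
    fin_cases x
    · simp
    · simpa using hp.symm
    · simpa using hj.symm
  · have : k = 0 := by revert hk hky; revert k; decide
    subst this
    fin_cases x
    · simp
    · simp
    · simp
  · exact absurd rfl hy

theorem kcol_proper {pt : Fin p → Fin p} (hpt : ∀ i, pt i ≠ i) (hs : s % 2 = 1) (hs1 : 1 < s)
    (i0 : Fin p) (a0 b0 : Fin s) (A0 A1 k l : Fin 3) (hA0 : A0 ≠ 2) (hA1 : A1 ≠ 2) (hk : k ≠ 2)
    (hl : l ≠ 2) (hkl : k ≠ l)
    (hk' : ¬ (a0.val = 0 ∧ b0.val = 0) → ∀ i j : Fin s, i.val = 0 → j.val = 0 →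
      k ≠ cc a0 b0 A0 A1 i j)
    (hl' : ¬ (a0.val = 1 ∧ b0.val = 1) → ∀ i j : Fin s, i.val = 1 → j.val = 1 →
      l ≠ cc a0 b0 A0 A1 i j)
    (u v : KV p s) (h : KV.rel pt u v) (hu : u ≠ .core i0 a0 b0) (hv : v ≠ .core i0 a0 b0) :
    kcol pt i0 a0 b0 A0 A1 k l u ≠ kcol pt i0 a0 b0 A0 A1 k l v := by
  have base := colr_proper hs hs1 false a0 b0 A0 A1 k l hA0 hA1 hk hl hkl hk' hl'
  have inj := pal_inj hpt i0 k
  have hcc2 : ∀ i j, cc a0 b0 A0 A1 i j ≠ 2 := by
    intro i j
    unfold cc
    split_ifs <;> first | decide | assumption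
  -- general facts on the colours of the cores
  have ccol : ∀ a b, kcol pt i0 a0 b0 A0 A1 k l (.core i0 a b) =
      pal pt i0 k i0 (cc a0 b0 A0 A1 a b) := by
    intro a b
    simp [kcol, pidx, idx, lft, colr]
  have dcol : ∀ j, j ≠ i0 → ∀ a b, kcol pt i0 a0 b0 A0 A1 k l (.core j a b) = some j := by
    intro j hj a b
    have : kcol pt i0 a0 b0 A0 A1 k l (.core j a b) = pal pt i0 k j 2 := by
      simp [kcol, pidx, idx, lft, colr, hj]
    rw [this, pal_two i0 k j hj]
  cases u with
  | core i a b =>
    cases v with
    | core j a' b' =>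
      simp only [KV.rel] at h
      by_cases hi : i = i0
      · subst hi
        rw [ccol, dcol j (Ne.symm h)]
        exact pal_i0 i k _ (hcc2 _ _) j (Ne.symm h)
      · by_cases hj : j = i0
        · subst hj
          rw [ccol, dcol i hi]
          exact (pal_i0 j k _ (hcc2 _ _) i hi).symm
        · rw [dcol i hi, dcol j hj]
          simpa using h
    | port j τ l' =>
      simp only [KV.rel] at h
      rcases h with ⟨rfl, h⟩ | ⟨h1, h2, h3, h4⟩
      · -- the same part
        unfold kcol
        intro he
        have he' := inj _ he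
        refine base _ _ ?_ ?_ ?_ he'
        · simp only [lft, GV.rel]
          exact ⟨trivial, h⟩
        · simp only [lft]
          intro h'
          apply hu
          simp only [GV.core.injEq, Bool.not_eq_false', decide_eq_true_eq] at h'
          rw [h'.1, h'.2.1, h'.2.2]
        · simp [lft]
      · by_cases hi : i = i0
        · subst hi
          rw [ccol]
          have hb := base (.mid true false) (.core false a b) (by simp [GV.rel, h3, h4]) (by simp)
            (by
              intro h'
              apply hu
              simp only [GV.core.injEq, true_and] at h'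
              rw [h'.1, h'.2])
          simp only [colr] at hb
          exact pal_core i k _ _ j h1 h2 hk (hcc2 _ _) (by simpa using hb)
        · rw [dcol i hi]
          exact (pal_some i0 k _ i j h1 hi h2).symm
    | cyc j τ l' =>
      simp only [KV.rel] at h
      obtain ⟨h1, h2, h3, h4⟩ := h
      by_cases hi : i = i0
      · subst hi
        rw [ccol]
        have hb := base (.mid true false) (.core false a b) (by simp [GV.rel, h3, h4]) (by simp)
          (by
            intro h'
            apply hu
            simp only [GV.core.injEq, true_and] at h'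
            rw [h'.1, h'.2])
        simp only [colr] at hb
        exact pal_core i k _ _ j h1 h2 hk (hcc2 _ _) (by simpa using hb)
      · rw [dcol i hi]
        exact (pal_some i0 k _ i j h1 hi h2).symm
    | hub j τ => simp [KV.rel] at h
    | mid j τ => simp [KV.rel] at h
  | port i τ a =>
    cases v with
    | core j a' b' => simp [KV.rel] at h
    | port j τ' l' => simp [KV.rel] at h
    | cyc j τ' l' =>
      simp only [KV.rel] at h
      obtain ⟨rfl, rfl, rfl⟩ := h
      unfold kcol
      intro he
      exact base _ _ (by simp [lft, GV.rel]) (by simp [lft]) (by simp [lft]) (inj _ he)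
    | hub j τ' => simp [KV.rel] at h
    | mid j τ' => simp [KV.rel] at h
  | cyc i τ a =>
    cases v with
    | core j a' b' => simp [KV.rel] at h
    | port j τ' l' => simp [KV.rel] at h
    | cyc j τ' l' =>
      simp only [KV.rel] at h
      obtain ⟨rfl, rfl, h⟩ := h
      unfold kcol
      intro he
      refine base _ _ ?_ (by simp [lft]) (by simp [lft]) (inj _ he)
      simp only [lft, GV.rel]
      exact ⟨trivial, trivial, h⟩
    | hub j τ' => simp [KV.rel] at h
    | mid j τ' => simp [KV.rel] at h
  | hub i τ =>
    cases v with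
    | core j a' b' =>
      simp only [KV.rel] at h
      by_cases hi : i = i0
      · subst hi
        rw [dcol j h]
        have : kcol pt i a0 b0 A0 A1 k l (.hub i τ : KV p s) =
            pal pt i k i (if τ = true then 1 else 0) := by
          simp [kcol, pidx, idx, lft, colr]
        rw [this]
        exact pal_i0 i k _ (by split_ifs <;> decide) j h
      · have : kcol pt i0 a0 b0 A0 A1 k l (.hub i τ : KV p s) = some i := by
          have : kcol pt i0 a0 b0 A0 A1 k l (.hub i τ : KV p s) = pal pt i0 k i 2 := by
            simp [kcol, pidx, idx, lft, colr, hi]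
          rw [this, pal_two i0 k i hi]
        rw [this]
        by_cases hj : j = i0
        · subst hj
          rw [ccol]
          exact (pal_i0 j k _ (hcc2 _ _) i hi).symm
        · rw [dcol j hj]
          simpa using h.symm
    | port j τ' l' =>
      simp only [KV.rel] at h
      obtain ⟨rfl, rfl⟩ := h
      unfold kcol
      intro he
      exact base _ _ (by simp [lft, GV.rel]) (by simp [lft]) (by simp [lft]) (inj _ he)
    | cyc j τ' l' => simp [KV.rel] at h
    | hub j τ' => simp [KV.rel] at h
    | mid j τ' => simp [KV.rel] at h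
  | mid i τ =>
    -- the colour of a middle vertex
    have mcol : ∀ τ', ∃ x : Fin 3, x ≠ 2 ∧
        kcol pt i0 a0 b0 A0 A1 k l (.mid i τ' : KV p s) = pal pt i0 k i0 x := by
      intro τ'
      by_cases hi : i = i0
      · subst hi
        refine ⟨if τ' = true then 0 else 1, by split_ifs <;> decide, ?_⟩
        simp [kcol, pidx, lft, colr]
      · refine ⟨if τ' = true then l else k, by split_ifs <;> assumption, ?_⟩
        simp [kcol, pidx, lft, colr, hi]
    cases v with
    | core j a' b' =>
      simp only [KV.rel] at h
      obtain ⟨h1, h⟩ := h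
      by_cases hj : j = i0
      · subst hj
        have hi : i ≠ j := Ne.symm h1
        unfold kcol
        intro he
        have he' := inj _ he
        refine base _ _ ?_ ?_ ?_ he'
        · simp only [lft, GV.rel]
          refine ⟨by simp [hi], h⟩
        · simp [lft]
        · simp only [lft]
          intro h'
          apply hv
          simp only [GV.core.injEq] at h'
          rw [h'.2.1, h'.2.2]
      · rw [dcol j hj]
        obtain ⟨x, hx, hxe⟩ := mcol τ
        rw [hxe]
        exact pal_i0 i0 k x hx j hj
    | port j τ' l' => simp [KV.rel] at h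
    | cyc j τ' l' => simp [KV.rel] at h
    | hub j τ' =>
      simp only [KV.rel] at h
      obtain ⟨rfl, rfl⟩ := h
      by_cases hj : j = i0
      · subst hj
        unfold kcol
        intro he
        exact base _ _ (by simp [lft, GV.rel]) (by simp [lft]) (by simp [lft])
          (inj _ he)
      · obtain ⟨x, hx, hxe⟩ := mcol τ'
        have : kcol pt i0 a0 b0 A0 A1 k l (.hub j τ' : KV p s) = some j := by
          have : kcol pt i0 a0 b0 A0 A1 k l (.hub j τ' : KV p s) = pal pt i0 k j 2 := by
            simp [kcol, pidx, idx, lft, colr, hj]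
          rw [this, pal_two i0 k j hj]
        rw [this, hxe]
        exact pal_i0 i0 k x hx j hj
    | mid j τ' =>
      simp only [KV.rel] at h
      obtain ⟨rfl, rfl, rfl⟩ := h
      unfold kcol
      intro he
      exact base _ _ (by simp [lft, GV.rel]) (by simp [lft]) (by simp [lft]) (inj _ he)

theorem KG_core_critical {pt : Fin p → Fin p} (hpt : ∀ i, pt i ≠ i) (hs : s % 2 = 1) (hs1 : 1 < s)
    (i0 : Fin p) (a0 b0 : Fin s) :
    ∃ f : KV p s → Fin (p + 1), ∀ u v, u ≠ .core i0 a0 b0 → v ≠ .core i0 a0 b0 →
      (KG pt s).Adj u v → f u ≠ f v := by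
  obtain ⟨A0, A1, k, l, hA0, hA1, hk, hl, hkl, hk', hl'⟩ := choose_cols
    (decide (a0.val = 0)) (decide (a0.val = 1)) (decide (b0.val = 0)) (decide (b0.val = 1))
    (by
      by_cases h : a0.val = 0
      · simp [h]
      · simp [h])
    (by
      by_cases h : b0.val = 0
      · simp [h]
      · simp [h])
  have key := kcol_proper (p := p) hpt hs hs1 i0 a0 b0 A0 A1 k l hA0 hA1 hk hl hkl ?_ ?_
  · let e : Option (Fin p) ≃ Fin (p + 1) := Fintype.equivFinOfCardEq (by simp)
    refine ⟨fun x => e (kcol pt i0 a0 b0 A0 A1 k l x), fun u v hu hv h he => ?_⟩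
    have he' := e.injective he
    rw [KG, SimpleGraph.fromRel_adj] at h
    rcases h.2 with h | h
    · exact key u v h hu hv he'
    · exact key v u h hv hu he'.symm
  · intro hne i j hi hj
    have h1 := hk' (by simpa using hne)
    unfold cc
    have e1 : (i = a0) ↔ a0.val = 0 := by rw [Fin.ext_iff]; omega
    have e2 : (j = b0) ↔ b0.val = 0 := by rw [Fin.ext_iff]; omega
    rw [ite_congr (propext e1) (fun _ => rfl) (fun _ => rfl),
      ite_congr (propext e2) (fun _ => rfl) (fun _ => rfl)]
    simpa [hi] using h1
  · intro hne i j hi hj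
    have h1 := hl' (by simpa using hne)
    unfold cc
    have e1 : (i = a0) ↔ a0.val = 1 := by rw [Fin.ext_iff]; omega
    have e2 : (j = b0) ↔ b0.val = 1 := by rw [Fin.ext_iff]; omega
    rw [ite_congr (propext e1) (fun _ => rfl) (fun _ => rfl),
      ite_congr (propext e2) (fun _ => rfl) (fun _ => rfl)]
    simpa [hi] using h1

end H851VG
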