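import Pool.Agent.H851.VG.HB

/-!
Lower bound for general `k`: critical subgraphs, Ore compositions, and the asymptotic lower bound.
-/

open Finset
open scoped Classical

namespace H851VG

/-- `G` is not `q`-colourable, but becomes `q`-colourable when any vertex is deleted -/
def Crit (q : ℕ) {V : Type*} (G : SimpleGraph V) : Prop :=
  (∀ f : V → Fin q, ∃ u w, G.Adj u w ∧ f u = f w) ∧
    ∀ v, ∃ f : V → Fin q, ∀ u w, u ≠ v → w ≠ v → G.Adj u w → f u ≠ f w

/-- there is a critical graph on `n` vertices with at least `m` ordered adjacent pairs -/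
def Has (q n m : ℕ) : Prop := ∃ G : SimpleGraph (Fin n), Crit q G ∧ m ≤ H851VC.e2 G Finset.univ

theorem has_of {q : ℕ} {V : Type*} [Fintype V] (G : SimpleGraph V) (hG : Crit q G) (m : ℕ)
    (hm : m ≤ H851VC.e2 G Finset.univ) : Has q (Fintype.card V) m := by
  let e : V ≃ Fin (Fintype.card V) := Fintype.equivFin V
  refine ⟨G.comap e.symm, ⟨?_, ?_⟩, ?_⟩
  · intro f
    obtain ⟨u, w, h, he⟩ := hG.1 (fun v => f (e v))
    exact ⟨e u, e w, by simpa using h, he⟩
  · intro v
    obtain ⟨f, hf⟩ := hG.2 (e.symm v)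
    refine ⟨fun x => f (e.symm x), fun u w hu hw h => ?_⟩
    exact hf _ _ (fun h' => hu (e.symm.injective h')) (fun h' => hw (e.symm.injective h')) h
  · refine hm.trans (le_of_eq ?_)
    rw [H851VC.e2_eq, H851VC.e2_eq]
    apply Finset.card_bij (fun p _ => (e p.1, e p.2))
    · intro p hp
      simp only [Finset.mem_filter, Finset.mem_product, Finset.mem_univ, true_and] at hp ⊢
      simpa using hp
    · rintro ⟨a, b⟩ _ ⟨a', b'⟩ _ h
      simpa using h
    · rintro ⟨a, b⟩ hp
      simp only [Finset.mem_filter, Finset.mem_product, Finset.mem_univ, true_and] at hp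
      refine ⟨(e.symm a, e.symm b), ?_, by simp⟩
      simp only [Finset.mem_filter, Finset.mem_product, Finset.mem_univ, true_and]
      exact hp

/-- existence of a critical induced subgraph containing all critical vertices -/
theorem exists_crit_sub {q : ℕ} {V : Type*} [Fintype V] (G : SimpleGraph V)
    (hG : ∀ f : V → Fin (q + 1), ∃ u w, G.Adj u w ∧ f u = f w) :
    ∃ W : Finset V, Crit (q + 1) (G.comap (Subtype.val : {x // x ∈ W} → V)) ∧
      ∀ v, (∃ f : V → Fin (q + 1), ∀ u w, u ≠ v → w ≠ v → G.Adj u w → f u ≠ f w) → v ∈ W := by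
  set F : Finset (Finset V) := Finset.univ.filter
    (fun W => ∀ f : V → Fin (q + 1), ∃ u ∈ W, ∃ w ∈ W, G.Adj u w ∧ f u = f w) with hF
  have hne : F.Nonempty := by
    refine ⟨Finset.univ, ?_⟩
    rw [hF, Finset.mem_filter]
    refine ⟨Finset.mem_univ _, fun f => ?_⟩
    obtain ⟨u, w, h⟩ := hG f
    exact ⟨u, Finset.mem_univ _, w, Finset.mem_univ _, h⟩
  obtain ⟨W, hW, hmin⟩ := Finset.exists_min_image F Finset.card hne
  have hW' := (Finset.mem_filter.1 hW).2
  refine ⟨W, ⟨?_, ?_⟩, ?_⟩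
  · intro f
    obtain ⟨u, hu, w, hw, h, he⟩ := hW' (fun x => if h : x ∈ W then f ⟨x, h⟩ else 0)
    refine ⟨⟨u, hu⟩, ⟨w, hw⟩, h, ?_⟩
    simpa [hu, hw] using he
  · rintro ⟨v, hv⟩
    by_contra hno
    push Not at hno
    have : W.erase v ∈ F := by
      rw [hF, Finset.mem_filter]
      refine ⟨Finset.mem_univ _, fun f => ?_⟩
      obtain ⟨⟨u, hu⟩, ⟨w, hw⟩, h1, h2, h3, h4⟩ := hno (fun x => f x)
      exact ⟨u, Finset.mem_erase.2 ⟨fun h => h1 (Subtype.ext h), hu⟩, w,
        Finset.mem_erase.2 ⟨fun h => h2 (Subtype.ext h), hw⟩, h3, h4⟩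
    have h1 := hmin _ this
    have h2 := Finset.card_erase_lt_of_mem hv
    omega
  · rintro v ⟨f, hf⟩
    by_contra hv
    obtain ⟨u, hu, w, hw, h, he⟩ := hW' f
    exact hf u w (fun h => hv (h ▸ hu)) (fun h => hv (h ▸ hw)) h he

section Core

variable (p s : ℕ)

/-- `KV p s` as a sum type -/
def KV.equiv : KV p s ≃ (Fin p × Fin s × Fin s) ⊕ (Fin p × Bool × Fin s) ⊕
    (Fin p × Bool × Fin s) ⊕ (Fin p × Bool) ⊕ (Fin p × Bool) where
  toFun
    | .core σ i j => Sum.inl (σ, i, j)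
    | .port σ τ i => Sum.inr (Sum.inl (σ, τ, i))
    | .cyc σ τ i => Sum.inr (Sum.inr (Sum.inl (σ, τ, i)))
    | .hub σ τ => Sum.inr (Sum.inr (Sum.inr (Sum.inl (σ, τ))))
    | .mid σ τ => Sum.inr (Sum.inr (Sum.inr (Sum.inr (σ, τ))))
  invFun
    | Sum.inl (σ, i, j) => .core σ i j
    | Sum.inr (Sum.inl (σ, τ, i)) => .port σ τ i
    | Sum.inr (Sum.inr (Sum.inl (σ, τ, i))) => .cyc σ τ i
    | Sum.inr (Sum.inr (Sum.inr (Sum.inl (σ, τ)))) => .hub σ τ
    | Sum.inr (Sum.inr (Sum.inr (Sum.inr (σ, τ)))) => .mid σ τ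
  left_inv := by rintro (_ | _ | _ | _ | _) <;> rfl
  right_inv := by rintro (_ | _ | _ | _ | _) <;> rfl

instance : Fintype (KV p s) := Fintype.ofEquiv _ (KV.equiv p s).symm

theorem card_KV : Fintype.card (KV p s) = p * s ^ 2 + 4 * p * s + 4 * p := by
  rw [Fintype.card_congr (KV.equiv p s)]
  simp only [Fintype.card_sum, Fintype.card_prod, Fintype.card_bool, Fintype.card_fin]
  ring

end Core

/-- a critical graph whose order is at most `p s^2 + 4 p s + 4 p`, with many edges -/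
theorem has_core {p s : ℕ} (hp : 2 ≤ p) (hs : s % 2 = 1) (hs1 : 1 < s) :
    ∃ n, n ≤ p * s ^ 2 + 4 * p * s + 4 * p ∧ Has (p + 1) n (p * (p - 1) * s ^ 4) := by
  let i0 : Fin p := ⟨0, by omega⟩
  let i1 : Fin p := ⟨1, by omega⟩
  let pt : Fin p → Fin p := fun i => if i = i0 then i1 else i0
  have hpt : ∀ i, pt i ≠ i := by
    intro i
    simp only [pt]
    split_ifs with h
    · rw [h]; simp [i0, i1]
    · exact fun h' => h h'.symm
  obtain ⟨W, hW, hmem⟩ := exists_crit_sub (KG pt s) (KG_not_colorable (by omega) hpt hs hs1)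
  have hcore : ∀ i a b, KV.core i a b ∈ W := fun i a b =>
    hmem _ (KG_core_critical hpt hs hs1 i a b)
  refine ⟨Fintype.card {x // x ∈ W}, ?_, ?_⟩
  · rw [Fintype.card_coe, ← card_KV]
    exact Finset.card_le_univ _
  · apply has_of _ hW
    rw [H851VC.e2_eq]
    have h1 : ((Finset.univ : Finset (Fin p)).offDiag ×ˢ
        (Finset.univ : Finset ((Fin s × Fin s) × (Fin s × Fin s)))).card =
        p * (p - 1) * s ^ 4 := by
      rw [Finset.card_product, Finset.offDiag_card]
      simp only [Finset.card_univ, Fintype.card_prod, Fintype.card_fin]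
      have : p * p - p = p * (p - 1) := by
        rw [Nat.mul_sub, mul_one]
      rw [this]
      ring
    rw [← h1]
    apply Finset.card_le_card_of_injOn
      (fun q => (⟨KV.core q.1.1 q.2.1.1 q.2.1.2, hcore _ _ _⟩,
        ⟨KV.core q.1.2 q.2.2.1 q.2.2.2, hcore _ _ _⟩))
    · rintro ⟨⟨i, j⟩, ⟨a, b⟩, ⟨k, l⟩⟩ h
      simp only [Finset.coe_product, Set.mem_prod, Finset.mem_coe, Finset.mem_offDiag,
        Finset.mem_univ, true_and, and_true] at h
      simp only [Finset.coe_filter, Finset.mem_product, Finset.mem_univ, true_and,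
        Set.mem_ofPred_eq, SimpleGraph.comap_adj]
      exact KG_adj_of_rel (by simpa [KV.rel] using h) (by simp [h])
    · rintro ⟨⟨i, j⟩, ⟨a, b⟩, ⟨k, l⟩⟩ _ ⟨⟨i', j'⟩, ⟨a', b'⟩, ⟨k', l'⟩⟩ _ h
      simp only [Prod.mk.injEq, Subtype.mk.injEq, KV.core.injEq] at h ⊢
      tauto

section Comp

variable {q : ℕ} {V W : Type*} (G : SimpleGraph V) (x : V) (c : V → Fin (q + 1))
  (M : SimpleGraph W) (y : W)

/-- one-directional adjacency of the composition -/
def crel : V ⊕ W → V ⊕ W → Prop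
  | Sum.inl a, Sum.inl b => G.Adj a b ∧ ¬ (a = x ∧ c b = 0) ∧ ¬ (b = x ∧ c a = 0)
  | Sum.inr w, Sum.inl b => (w = y ∧ G.Adj x b ∧ c b = 0) ∨ (w ≠ y ∧ b = x ∧ M.Adj w y)
  | Sum.inr w, Sum.inr w' => (w = y ∧ w' ≠ y) ∨ (w ≠ y ∧ w' ≠ y ∧ M.Adj w w')
  | Sum.inl _, Sum.inr _ => False

/-- the composition -/
def CG : SimpleGraph (V ⊕ W) := SimpleGraph.fromRel (crel G x c M y)

theorem CG_adj_of_rel {u v : V ⊕ W} (h : crel G x c M y u v) (hne : u ≠ v) :
    (CG G x c M y).Adj u v := by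
  rw [CG, SimpleGraph.fromRel_adj]
  exact ⟨hne, Or.inl h⟩

theorem CG_not_colorable (hG : ∀ f : V → Fin (q + 1), ∃ u w, G.Adj u w ∧ f u = f w)
    (hM : ∀ f : W → Fin q, ∃ u w, M.Adj u w ∧ f u = f w)
    (f : V ⊕ W → Fin (q + 1)) : ∃ u w, (CG G x c M y).Adj u w ∧ f u = f w := by
  by_contra hno
  push Not at hno
  have hf : ∀ u v, crel G x c M y u v → u ≠ v → f u ≠ f v := fun u v h hne =>
    hno u v (CG_adj_of_rel G x c M y h hne)
  have h7 : f (Sum.inl x) = f (Sum.inr y) := by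
    by_contra hne
    set m : W → Fin (q + 1) := fun w => if w = y then f (Sum.inl x) else f (Sum.inr w) with hm
    have hmu : ∀ w, ∃ t, (f (Sum.inr y)).succAbove t = m w := by
      intro w
      apply Fin.exists_succAbove_eq
      simp only [hm]
      split_ifs with h
      · exact hne
      · refine (hf (Sum.inr y) (Sum.inr w) (Or.inl ⟨rfl, h⟩) (fun h' => h ?_)).symm
        exact (Sum.inr.inj h').symm
    choose g hg using hmu
    obtain ⟨w, w', hww, he⟩ := hM g
    have he' : m w = m w' := by rw [← hg w, ← hg w', he]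
    simp only [hm] at he'
    by_cases h1 : w = y
    · by_cases h2 : w' = y
      · exact hww.ne (h1.trans h2.symm)
      · rw [if_pos h1, if_neg h2] at he'
        exact hf (Sum.inr w') (Sum.inl x) (Or.inr ⟨h2, rfl, h1 ▸ hww.symm⟩) (by simp) he'.symm
    · by_cases h2 : w' = y
      · rw [if_neg h1, if_pos h2] at he'
        exact hf (Sum.inr w) (Sum.inl x) (Or.inr ⟨h1, rfl, h2 ▸ hww⟩) (by simp) he'
      · rw [if_neg h1, if_neg h2] at he'
        exact hf (Sum.inr w) (Sum.inr w') (Or.inr ⟨h1, h2, hww⟩)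
          (fun h => hww.ne (Sum.inr.inj h)) he'
  obtain ⟨a, b, hab, he⟩ := hG (fun v => f (Sum.inl v))
  by_cases c1 : a = x ∧ c b = 0
  · obtain ⟨rfl, hcb⟩ := c1
    have : f (Sum.inr y) ≠ f (Sum.inl b) := hf _ _ (Or.inl ⟨rfl, hab, hcb⟩) (by simp)
    exact this (h7.symm.trans he)
  · by_cases c2 : b = x ∧ c a = 0
    · obtain ⟨rfl, hca⟩ := c2
      have : f (Sum.inr y) ≠ f (Sum.inl a) := hf _ _ (Or.inl ⟨rfl, hab.symm, hca⟩) (by simp)
      exact this (h7.symm.trans he.symm)
    · exact hf (Sum.inl a) (Sum.inl b) ⟨hab, c1, c2⟩ (fun h => hab.ne (Sum.inl.inj h)) he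

theorem CG_col (hq : 1 ≤ q) (hcx : ∀ u w, u ≠ x → w ≠ x → G.Adj u w → c u ≠ c w)
    (hG : ∀ v, ∃ f : V → Fin (q + 1), ∀ u w, u ≠ v → w ≠ v → G.Adj u w → f u ≠ f w)
    (hM : ∀ v, ∃ f : W → Fin q, ∀ u w, u ≠ v → w ≠ v → M.Adj u w → f u ≠ f w)
    (v : V ⊕ W) : ∃ f : V ⊕ W → Fin (q + 1),
      ∀ u w, u ≠ v → w ≠ v → (CG G x c M y).Adj u w → f u ≠ f w := by
  suffices h : ∃ f : V ⊕ W → Fin (q + 1),
      ∀ u w, u ≠ v → w ≠ v → crel G x c M y u w → f u ≠ f w by
    obtain ⟨f, hf⟩ := h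
    refine ⟨f, fun u w hu hw h => ?_⟩
    rw [CG, SimpleGraph.fromRel_adj] at h
    rcases h.2 with h | h
    · exact hf u w hu hw h
    · exact (hf w u hw hu h).symm
  have h01 : (0 : Fin (q + 1)) ≠ ⟨1, by omega⟩ := by
    intro h
    have := congrArg Fin.val h
    simp at this
  set one : Fin (q + 1) := ⟨1, by omega⟩ with hone
  obtain ⟨g, hg⟩ := hM y
  rcases v with a | w0
  · by_cases hax : a = x
    · subst hax
      refine ⟨Sum.elim c (fun w => if w = y then one else one.succAbove (g w)), ?_⟩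
      rintro (u | i) (w | j) hu hw h
      · exact hcx u w (fun h => hu (by rw [h])) (fun h => hw (by rw [h])) h.1
      · exact h.elim
      · simp only [crel] at h
        simp only [Sum.elim_inl, Sum.elim_inr]
        rcases h with ⟨h1, _, h3⟩ | ⟨_, h1, _⟩
        · rw [if_pos h1, h3]; exact h01.symm
        · exact absurd (by rw [h1]) hw
      · simp only [crel] at h
        simp only [Sum.elim_inr]
        rcases h with ⟨h1, h2⟩ | ⟨h1, h2, h3⟩
        · rw [if_pos h1, if_neg h2]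
          exact (Fin.succAbove_ne _ _).symm
        · rw [if_neg h1, if_neg h2]
          exact fun h => hg i j h1 h2 h3 (Fin.succAbove_right_injective h)
    · obtain ⟨h0, hh⟩ := hG a
      refine ⟨Sum.elim h0 (fun w => if w = y then h0 x else (h0 x).succAbove (g w)), ?_⟩
      rintro (u | i) (w | j) hu hw h
      · exact hh u w (fun h => hu (by rw [h])) (fun h => hw (by rw [h])) h.1
      · exact h.elim
      · simp only [crel] at h
        simp only [Sum.elim_inl, Sum.elim_inr]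
        rcases h with ⟨h1, h2, _⟩ | ⟨h1, h2, _⟩
        · rw [if_pos h1]
          exact hh x w (fun h => hax h.symm) (fun h => hw (by rw [h])) h2
        · rw [if_neg h1, h2]
          exact Fin.succAbove_ne _ _
      · simp only [crel] at h
        simp only [Sum.elim_inr]
        rcases h with ⟨h1, h2⟩ | ⟨h1, h2, h3⟩
        · rw [if_pos h1, if_neg h2]
          exact (Fin.succAbove_ne _ _).symm
        · rw [if_neg h1, if_neg h2]
          exact fun h => hg i j h1 h2 h3 (Fin.succAbove_right_injective h)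
  · have hll : ∀ u w, G.Adj u w ∧ ¬ (u = x ∧ c w = 0) ∧ ¬ (w = x ∧ c u = 0) →
        (if u = x then (0 : Fin (q + 1)) else c u) ≠ (if w = x then 0 else c w) := by
      rintro u w ⟨h1, h2, h3⟩
      by_cases hux : u = x
      · have hwx : w ≠ x := fun h' => h1.ne (hux.trans h'.symm)
        rw [if_pos hux, if_neg hwx]
        exact fun h' => h2 ⟨hux, h'.symm⟩
      · by_cases hwx : w = x
        · rw [if_neg hux, if_pos hwx]
          exact fun h' => h3 ⟨hwx, h'⟩
        · rw [if_neg hux, if_neg hwx]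
          exact hcx u w hux hwx h1
    by_cases hy : w0 = y
    · subst hy
      refine ⟨Sum.elim (fun b => if b = x then 0 else c b)
        (fun w => (0 : Fin (q + 1)).succAbove (g w)), ?_⟩
      rintro (u | i) (w | j) hu hw h
      · simp only [Sum.elim_inl]
        exact hll u w h
      · exact h.elim
      · simp only [crel] at h
        simp only [Sum.elim_inl, Sum.elim_inr]
        rcases h with ⟨h1, _, _⟩ | ⟨_, h2, _⟩
        · exact absurd (by rw [h1]) hu
        · rw [if_pos h2]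
          exact Fin.succAbove_ne _ _
      · simp only [crel] at h
        simp only [Sum.elim_inr]
        rcases h with ⟨h1, _⟩ | ⟨h1, h2, h3⟩
        · exact absurd (by rw [h1]) hu
        · exact fun h => hg i j h1 h2 h3 (Fin.succAbove_right_injective h)
    · obtain ⟨g0, hg0⟩ := hM w0
      set e : Fin (q + 1) ≃ Fin (q + 1) := Equiv.swap 0 (one.succAbove (g0 y)) with he
      have he1 : ∀ t, e (one.succAbove t) ≠ one := by
        intro t h
        have h1 : e one = one := by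
          rw [he, Equiv.swap_apply_of_ne_of_ne h01.symm (Fin.succAbove_ne _ _).symm]
        have := e.injective (h.trans h1.symm)
        exact Fin.succAbove_ne _ _ this
      have he0 : e (one.succAbove (g0 y)) = 0 := by rw [he, Equiv.swap_apply_right]
      refine ⟨Sum.elim (fun b => if b = x then 0 else c b)
        (fun w => if w = y then one else e (one.succAbove (g0 w))), ?_⟩
      rintro (u | i) (w | j) hu hw h
      · simp only [Sum.elim_inl]
        exact hll u w h
      · exact h.elim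
      · simp only [crel] at h
        simp only [Sum.elim_inl, Sum.elim_inr]
        rcases h with ⟨h1, h2, h3⟩ | ⟨h1, h2, h3⟩
        · rw [if_pos h1, if_neg h2.ne', h3]
          exact h01.symm
        · rw [if_neg h1, if_pos h2, ← he0]
          intro h
          have := Fin.succAbove_right_injective (e.injective h)
          exact hg0 i y (fun h => hu (by rw [h])) (fun h => hy h.symm) h3 this
      · simp only [crel] at h
        simp only [Sum.elim_inr]
        rcases h with ⟨h1, h2⟩ | ⟨h1, h2, h3⟩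
        · rw [if_pos h1, if_neg h2]
          exact (he1 _).symm
        · rw [if_neg h1, if_neg h2]
          intro h
          have := Fin.succAbove_right_injective (e.injective h)
          exact hg0 i j (fun h => hu (by rw [h])) (fun h => hw (by rw [h])) h3 this

end Comp

theorem has_comp {q n m d m' : ℕ} (hq : 1 ≤ q) (hn : 0 < n) (hd : 0 < d) (h : Has (q + 1) n m)
    (h' : Has q d m') : Has (q + 1) (n + d) m := by
  obtain ⟨G, hG, hm⟩ := h
  obtain ⟨M, hM, _⟩ := h'
  let x : Fin n := ⟨0, hn⟩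
  let y : Fin d := ⟨0, hd⟩
  obtain ⟨c, hc⟩ := hG.2 x
  have hcard : n + d = Fintype.card (Fin n ⊕ Fin d) := by
    rw [Fintype.card_sum, Fintype.card_fin, Fintype.card_fin]
  rw [hcard]
  refine has_of (CG G x c M y) ⟨CG_not_colorable G x c M y hG.1 hM.1,
    CG_col G x c M y hq hc hG.2 hM.2⟩ m ?_
  refine hm.trans ?_
  rw [H851VC.e2_eq, H851VC.e2_eq]
  apply Finset.card_le_card_of_injOn
    (fun p => ((if p.1 = x ∧ c p.2 = 0 then Sum.inr y else Sum.inl p.1),
      (if p.2 = x ∧ c p.1 = 0 then Sum.inr y else Sum.inl p.2)))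
  · rintro ⟨a, b⟩ hp
    simp only [Finset.coe_filter, Finset.mem_product, Finset.mem_univ, true_and,
      Set.mem_ofPred_eq] at hp ⊢
    by_cases c1 : a = x ∧ c b = 0
    · have c2 : ¬ (b = x ∧ c a = 0) := fun h => hp.ne (c1.1.trans h.1.symm)
      rw [if_pos c1, if_neg c2]
      apply CG_adj_of_rel
      · exact Or.inl ⟨rfl, by rw [← c1.1]; exact hp, c1.2⟩
      · simp
    · by_cases c2 : b = x ∧ c a = 0
      · rw [if_neg c1, if_pos c2]
        refine (CG_adj_of_rel G x c M y ?_ ?_).symm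
        · exact Or.inl ⟨rfl, by rw [← c2.1]; exact hp.symm, c2.2⟩
        · simp
      · rw [if_neg c1, if_neg c2]
        exact CG_adj_of_rel G x c M y ⟨hp, c1, c2⟩ (fun h => hp.ne (Sum.inl.inj h))
  · -- injectivity
    have key : ∀ (P Q : Prop) [Decidable P] [Decidable Q] (a b : Fin n), (P → a = x) → (Q → b = x) →
        (if P then (Sum.inr y : Fin n ⊕ Fin d) else Sum.inl a) =
        (if Q then (Sum.inr y : Fin n ⊕ Fin d) else Sum.inl b) → a = b := by
      intro P Q _ _ a b hP hQ h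
      by_cases hp : P <;> by_cases hq : Q
      · rw [hP hp, hQ hq]
      · simp [hp, hq] at h
      · simp [hp, hq] at h
      · simpa [hp, hq] using h
    rintro ⟨a, b⟩ _ ⟨a', b'⟩ _ h
    simp only [Prod.mk.injEq] at h ⊢
    exact ⟨key _ _ a a' (fun h => h.1) (fun h => h.1) h.1,
      key _ _ b b' (fun h => h.1) (fun h => h.1) h.2⟩

/-- the complete graph is critical -/
theorem has_complete (q : ℕ) (hq : 1 ≤ q) : Has q (q + 1) 0 := by
  refine ⟨⊤, ⟨?_, ?_⟩, Nat.zero_le _⟩
  · intro f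
    obtain ⟨u, w, hne, he⟩ := Fintype.exists_ne_map_eq_of_card_lt f (by simp)
    exact ⟨u, w, hne, he⟩
  · intro v
    have : ∀ w, ∃ t : Fin q, w ≠ v → v.succAbove t = w := by
      intro w
      by_cases h : w = v
      · exact ⟨⟨0, by omega⟩, fun h' => absurd h h'⟩
      · obtain ⟨t, ht⟩ := Fin.exists_succAbove_eq h
        exact ⟨t, fun _ => ht⟩
    choose f hf using this
    refine ⟨f, fun u w hu hw h he => ?_⟩
    apply h.ne
    rw [← hf u hu, ← hf w hw, he]

/-- any number `d` of vertices with `q^2 + q ≤ 2 d + 2` may be added -/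
theorem has_add (q : ℕ) (hq : 3 ≤ q) : ∀ n m d, 0 < n → q ^ 2 + q ≤ 2 * d + 2 → Has q n m →
    Has q (n + d) m := by
  induction q, hq using Nat.le_induction with
  | base => exact fun n m d hn hd h => H851VC.has_add hn h d (by omega)
  | succ q hq ih =>
    intro n m d hn hd h
    have hd' : q ^ 2 + 3 * q ≤ 2 * d := by nlinarith
    have h1 := ih (q + 1) 0 (d - (q + 1)) (by omega) (by
      have : q + 1 ≤ d := by nlinarith
      omega) (has_complete q (by omega))
    have hdq : q + 1 ≤ d := by nlinarith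
    rw [show q + 1 + (d - (q + 1)) = d by omega] at h1
    exact has_comp (by omega) hn (by omega) h h1

/-- for all large `n` there is a critical graph on `n` vertices with many edges -/
theorem has_all (p : ℕ) (hp : 2 ≤ p) (n : ℕ) (hn : p ^ 2 + 53 * p ≤ 2 * n) : ∃ s : ℕ, 1 ≤ s ∧
    p * s ^ 2 ≤ n ∧ n ≤ p * s ^ 2 + 14 * p ^ 2 * s ∧ Has (p + 1) n (p * (p - 1) * s ^ 4) := by
  have hN := has_add (p + 1) (by omega)
  set P : ℕ → Prop := fun q =>
    2 * (p * (2 * q + 1) ^ 2 + 4 * p * (2 * q + 1) + 4 * p) + (p ^ 2 + 3 * p) ≤ 2 * n with hP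
  set q := Nat.findGreatest P n with hq
  have hP1 : P 1 := by simp only [hP]; omega
  have hn1 : 1 ≤ n := by nlinarith
  have hq1 : 1 ≤ q := Nat.le_findGreatest hn1 hP1
  have hPq : P q := Nat.findGreatest_spec (m := 1) hn1 hP1
  have hqn : q + 1 ≤ n := by
    simp only [hP] at hPq
    nlinarith
  have hPq' : ¬ P (q + 1) := Nat.findGreatest_is_greatest (Nat.lt_succ_self _) hqn
  simp only [hP] at hPq hPq'
  push Not at hPq'
  refine ⟨2 * q + 1, by omega, by nlinarith, ?_, ?_⟩
  · set s := 2 * q + 1 with hs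
    have h1 : 2 * (p * (2 * (q + 1) + 1) ^ 2 + 4 * p * (2 * (q + 1) + 1) + 4 * p) +
        (p ^ 2 + 3 * p) = 2 * (p * s ^ 2) + 16 * (p * s) + 35 * p + p ^ 2 := by
      rw [hs]; ring
    rw [h1] at hPq'
    have hs1 : 1 ≤ s := by omega
    have h2 : 35 * p + p ^ 2 ≤ (35 * p + p ^ 2) * s := Nat.le_mul_of_pos_right _ hs1
    have h3 : 2 * p ≤ p ^ 2 := by nlinarith
    have h4 : 2 * (p * s) ≤ p ^ 2 * s := by nlinarith
    have h5 : (35 * p + p ^ 2) * s = 35 * (p * s) + p ^ 2 * s := by ring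
    have h6 : 14 * p ^ 2 * s = 14 * (p ^ 2 * s) := by ring
    rw [h6]
    omega
  · obtain ⟨n1, hn1', hhas⟩ := has_core (p := p) (s := 2 * q + 1) hp (by omega) (by omega)
    have hpos : 0 < n1 := by
      obtain ⟨G, hG, _⟩ := hhas
      obtain ⟨u, _⟩ := hG.1 (fun _ => 0)
      exact Fin.pos u
    have := hN n1 _ (n - n1) hpos (by
      have e : (p + 1) ^ 2 + (p + 1) = p ^ 2 + 3 * p + 2 := by ring
      rw [e]
      omega) hhas
    rwa [show n1 + (n - n1) = n by omega] at this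

theorem lower_arith (p L n s : ℕ) (hp : 2 ≤ p) (hs : 1 ≤ s) (h : n ≤ p * s ^ 2 + L * s)
    (h' : p * s ^ 2 ≤ n) :
    (1 - 1 / (p : ℝ)) / 2 * (n : ℝ) ^ 2 - L * (n * Real.sqrt n) ≤
      ((p * (p - 1) * s ^ 4 : ℕ) : ℝ) / 2 := by
  have hpr : (2 : ℝ) ≤ p := by exact_mod_cast hp
  have hp0 : (0 : ℝ) < p := by linarith
  have hnr : (n : ℝ) ≤ p * (s : ℝ) ^ 2 + L * s := by exact_mod_cast h
  have hnr' : p * (s : ℝ) ^ 2 ≤ n := by exact_mod_cast h'
  have hs0 : (0 : ℝ) ≤ s := by positivity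
  have hL0 : (0 : ℝ) ≤ L := by positivity
  have hn0 : (0 : ℝ) ≤ n := by positivity
  set r : ℝ := Real.sqrt n with hr
  have hr0 : 0 ≤ r := Real.sqrt_nonneg _
  have hrr : r * r = n := Real.mul_self_sqrt hn0
  have hsr : (s : ℝ) ≤ r := by
    apply Real.le_sqrt_of_sq_le
    nlinarith
  have h5 : (n : ℝ) - L * r ≤ p * (s : ℝ) ^ 2 := by nlinarith
  have h6 : 1 / (p : ℝ) ≤ 1 / 2 := one_div_le_one_div_of_le (by norm_num) hpr
  have h60 : 0 < 1 / (p : ℝ) := by positivity
  set ζ : ℝ := (1 - 1 / (p : ℝ)) / 2 with hζ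
  have hζ0 : 0 ≤ ζ := by rw [hζ]; linarith
  have hζ1 : ζ ≤ 1 / 2 := by rw [hζ]; linarith
  have h7 : ((p * (p - 1) * s ^ 4 : ℕ) : ℝ) / 2 = ζ * (p * (s : ℝ) ^ 2) ^ 2 := by
    have : ((p - 1 : ℕ) : ℝ) = p - 1 := by rw [Nat.cast_sub (by omega)]; simp
    push_cast
    rw [this, hζ]
    field_simp
  rw [h7]
  by_cases hneg : (n : ℝ) - L * r ≤ 0
  · have h8 : (n : ℝ) ^ 2 ≤ L * (n * r) := by nlinarith
    have h9 : ζ * (n : ℝ) ^ 2 ≤ 1 * (L * (n * r)) := by
      apply mul_le_mul (by linarith) h8 (by positivity) (by norm_num)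
    have h10 : 0 ≤ ζ * (p * (s : ℝ) ^ 2) ^ 2 := by positivity
    linarith
  · push Not at hneg
    have h8 : ((n : ℝ) - L * r) ^ 2 ≤ (p * (s : ℝ) ^ 2) ^ 2 :=
      pow_le_pow_left₀ hneg.le h5 2
    have h9 : (n : ℝ) ^ 2 - 2 * L * (n * r) ≤ (p * (s : ℝ) ^ 2) ^ 2 := by
      nlinarith [sq_nonneg (L * r)]
    have h10 : ζ * ((n : ℝ) ^ 2 - 2 * L * (n * r)) ≤ ζ * (p * (s : ℝ) ^ 2) ^ 2 :=
      mul_le_mul_of_nonneg_left h9 hζ0
    have h11 : ζ * (2 * L * (n * r)) ≤ 1 / 2 * (2 * L * (n * r)) :=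
      mul_le_mul_of_nonneg_right hζ1 (by positivity)
    nlinarith

end H851VG
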